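import Mathlib

/-! Hurwitz moves on lists of group elements, words in a family of generators. -/

namespace Pool.Agent.helper35.Hz

/-- one Hurwitz move `(x, y) ↦ (x y x⁻¹, x)` on two consecutive entries of a tuple (a list). -/
inductive HurwitzMove {G : Type*} [Group G] : List G → List G → Prop
  | mk (u v : List G) (x y : G) :
      HurwitzMove (u ++ x :: y :: v) (u ++ (x * y * x⁻¹) :: x :: v)

/-- Hurwitz equivalence: related by finitely many Hurwitz moves and inverse moves. -/
def HurwitzEquiv {G : Type*} [Group G] : List G → List G → Prop :=
  Relation.EqvGen HurwitzMove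

/-- the element of `G` given by a word in the letters `gen i` (`true`) and `(gen i)⁻¹` (`false`). -/
def evalWord {G : Type*} [Group G] {ι : Type*} (gen : ι → G) (w : List (ι × Bool)) : G :=
  (w.map fun p => if p.2 then gen p.1 else (gen p.1)⁻¹).prod

/-- factorizations of `1` with entries in `PT` -/
def IsFact {G : Type*} [Group G] (PT : Set G) (l : List G) : Prop :=
  (∀ f ∈ l, f ∈ PT) ∧ l.prod = 1

end Pool.Agent.helper35.Hz
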