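import Mathlib
import Pool.Agent.helper35.Hz.Hurwitz

/-! # Surface groups and Dehn twists (algebraic model)

`FG g` is the free group on `a_0, b_0, …, a_{g-1}, b_{g-1}` = the fundamental group of the surface of genus
`g` with one boundary component, the boundary being `R g = ∏ [a_i, b_i]`. Indices are natural numbers. -/

namespace Pool.Agent.helper35.Hz

/-- the free group on `a_i = (i, true)` and `b_i = (i, false)`, `i < g` -/
abbrev FG (g : ℕ) := FreeGroup (Fin g × Bool)

/-- the generator `a_i` (`1` if `i ≥ g`) -/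
def ga (g i : ℕ) : FG g := if h : i < g then FreeGroup.of (⟨i, h⟩, true) else 1

/-- the generator `b_i` (`1` if `i ≥ g`) -/
def gb (g i : ℕ) : FG g := if h : i < g then FreeGroup.of (⟨i, h⟩, false) else 1

/-- `z_i = [a_i, b_i]` -/
def gz (g i : ℕ) : FG g := ga g i * gb g i * (ga g i)⁻¹ * (gb g i)⁻¹

/-- `z_i z_{i+1} ⋯ z_{j-1}` -/
def zr (g i j : ℕ) : FG g := ((List.range' i (j - i)).map (gz g)).prod

/-- the boundary word `R = ∏_{i<g} [a_i, b_i]` -/
def R (g : ℕ) : FG g := zr g 0 g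

/-! ### basic lemmas -/

theorem ga_of_lt {g i : ℕ} (h : i < g) : ga g i = FreeGroup.of (⟨i, h⟩, true) := by simp [ga, h]
theorem gb_of_lt {g i : ℕ} (h : i < g) : gb g i = FreeGroup.of (⟨i, h⟩, false) := by simp [gb, h]
theorem ga_of_ge {g i : ℕ} (h : ¬ i < g) : ga g i = 1 := by simp [ga, h]
theorem gb_of_ge {g i : ℕ} (h : ¬ i < g) : gb g i = 1 := by simp [gb, h]

theorem zr_self (g i : ℕ) : zr g i i = 1 := by simp [zr]

theorem zr_split (g : ℕ) {i j k : ℕ} (h1 : i ≤ j) (h2 : j ≤ k) : zr g i k = zr g i j * zr g j k := by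
  unfold zr
  have : k - i = (j - i) + (k - j) := by omega
  rw [this, ← List.range'_append_1, List.map_append, List.prod_append]
  have : i + (j - i) = j := by omega
  rw [this]

theorem zr_one (g i : ℕ) : zr g i (i + 1) = gz g i := by
  simp [zr]

theorem zr_succ (g : ℕ) {i j : ℕ} (h : i ≤ j) : zr g i (j + 1) = zr g i j * gz g j := by
  rw [zr_split g h (Nat.le_succ j), zr_one]

theorem zr_succ_left (g : ℕ) {i j : ℕ} (h : i < j) : zr g i j = gz g i * zr g (i + 1) j := by
  rw [zr_split g (Nat.le_succ i) h, zr_one]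

/-- two homomorphisms out of `FG g` that agree on all `a_i, b_i` are equal -/
theorem fg_hom_ext {g : ℕ} {M : Type*} [Monoid M] {f f' : FG g →* M}
    (ha : ∀ i < g, f (ga g i) = f' (ga g i)) (hb : ∀ i < g, f (gb g i) = f' (gb g i)) : f = f' := by
  refine FreeGroup.ext_hom _ _ fun x => ?_
  obtain ⟨⟨i, hi⟩, s⟩ := x
  cases s
  · have := hb i hi; rwa [gb_of_lt hi] at this
  · have := ha i hi; rwa [ga_of_lt hi] at this

theorem fg_aut_ext {g : ℕ} {f f' : MulAut (FG g)}
    (ha : ∀ i < g, f (ga g i) = f' (ga g i)) (hb : ∀ i < g, f (gb g i) = f' (gb g i)) : f = f' := by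
  have : f.toMonoidHom = f'.toMonoidHom := fg_hom_ext (by simpa using ha) (by simpa using hb)
  ext x
  exact DFunLike.congr_fun this x

/-- the homomorphism with `a_i ↦ A i`, `b_i ↦ B i` -/
def mkHom (g : ℕ) {M : Type*} [Group M] (A B : ℕ → M) : FG g →* M :=
  FreeGroup.lift fun x => if x.2 then A x.1 else B x.1

theorem mkHom_ga {g : ℕ} {M : Type*} [Group M] (A B : ℕ → M) {i : ℕ} (h : i < g) :
    mkHom g A B (ga g i) = A i := by simp [mkHom, ga_of_lt h]

theorem mkHom_gb {g : ℕ} {M : Type*} [Group M] (A B : ℕ → M) {i : ℕ} (h : i < g) :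
    mkHom g A B (gb g i) = B i := by simp [mkHom, gb_of_lt h]

/-- the automorphism with `a_i ↦ A i`, `b_i ↦ B i`, whose inverse is `a_i ↦ A' i`, `b_i ↦ B' i` -/
def mkAut (g : ℕ) (A B A' B' : ℕ → FG g)
    (h1 : ∀ i < g, mkHom g A' B' (A i) = ga g i) (h2 : ∀ i < g, mkHom g A' B' (B i) = gb g i)
    (h3 : ∀ i < g, mkHom g A B (A' i) = ga g i) (h4 : ∀ i < g, mkHom g A B (B' i) = gb g i) :
    MulAut (FG g) :=
  MonoidHom.toMulEquiv (mkHom g A B) (mkHom g A' B')
    (fg_hom_ext (fun i hi => by simp [mkHom_ga A B hi, h1 i hi])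
      (fun i hi => by simp [mkHom_gb A B hi, h2 i hi]))
    (fg_hom_ext (fun i hi => by simp [mkHom_ga A' B' hi, h3 i hi])
      (fun i hi => by simp [mkHom_gb A' B' hi, h4 i hi]))

theorem mkAut_ga {g : ℕ} {A B A' B' : ℕ → FG g} {h1 h2 h3 h4} {i : ℕ} (h : i < g) :
    mkAut g A B A' B' h1 h2 h3 h4 (ga g i) = A i := by
  change mkHom g A B (ga g i) = A i
  exact mkHom_ga A B h

theorem mkAut_gb {g : ℕ} {A B A' B' : ℕ → FG g} {h1 h2 h3 h4} {i : ℕ} (h : i < g) :
    mkAut g A B A' B' h1 h2 h3 h4 (gb g i) = B i := by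
  change mkHom g A B (gb g i) = B i
  exact mkHom_gb A B h

theorem mkAut_inv_ga {g : ℕ} {A B A' B' : ℕ → FG g} {h1 h2 h3 h4} {i : ℕ} (h : i < g) :
    (mkAut g A B A' B' h1 h2 h3 h4)⁻¹ (ga g i) = A' i := by
  change mkHom g A' B' (ga g i) = A' i
  exact mkHom_ga A' B' h

theorem mkAut_inv_gb {g : ℕ} {A B A' B' : ℕ → FG g} {h1 h2 h3 h4} {i : ℕ} (h : i < g) :
    (mkAut g A B A' B' h1 h2 h3 h4)⁻¹ (gb g i) = B' i := by
  change mkHom g A' B' (gb g i) = B' i
  exact mkHom_gb A' B' h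

/-! ### twists -/

/-- The homomorphism `x ↦ c^[α x] x c^{-[β x]}` on the generators `x = a_l` (`(l, true)`), `b_l`
(`(l, false)`). -/
def twHom {g : ℕ} (c : FG g) (α β : ℕ → Bool → Bool) : FG g →* FG g :=
  mkHom g (fun l => (if α l true then c else 1) * ga g l * (if β l true then c⁻¹ else 1))
    (fun l => (if α l false then c else 1) * gb g l * (if β l false then c⁻¹ else 1))

theorem twHom_ga {g : ℕ} (c : FG g) (α β : ℕ → Bool → Bool) {l : ℕ} (h : l < g) :
    twHom c α β (ga g l) = (if α l true then c else 1) * ga g l * (if β l true then c⁻¹ else 1) :=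
  mkHom_ga _ _ h

theorem twHom_gb {g : ℕ} (c : FG g) (α β : ℕ → Bool → Bool) {l : ℕ} (h : l < g) :
    twHom c α β (gb g l) = (if α l false then c else 1) * gb g l * (if β l false then c⁻¹ else 1) :=
  mkHom_gb _ _ h

theorem twHom_comp {g : ℕ} (c : FG g) (α β : ℕ → Bool → Bool) (h : twHom c⁻¹ α β c = c) :
    (twHom c⁻¹ α β).comp (twHom c α β) = MonoidHom.id _ := by
  refine fg_hom_ext (fun i hi => ?_) (fun i hi => ?_)
  · rw [MonoidHom.comp_apply, twHom_ga c α β hi, map_mul, map_mul, twHom_ga _ _ _ hi,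
      apply_ite (twHom c⁻¹ α β), apply_ite (twHom c⁻¹ α β), map_one, map_inv, h]
    split_ifs <;> simp [mul_assoc]
  · rw [MonoidHom.comp_apply, twHom_gb c α β hi, map_mul, map_mul, twHom_gb _ _ _ hi,
      apply_ite (twHom c⁻¹ α β), apply_ite (twHom c⁻¹ α β), map_one, map_inv, h]
    split_ifs <;> simp [mul_assoc]

/-- the automorphism `x ↦ c^[α x] x c^{-[β x]}`; it must fix `c` (as must `x ↦ c^{-[α x]} x c^[β x]`, which
is then the inverse) -/
def tw {g : ℕ} (c : FG g) (α β : ℕ → Bool → Bool) (h1 : twHom c α β c = c)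
    (h2 : twHom c⁻¹ α β c = c) : MulAut (FG g) :=
  MonoidHom.toMulEquiv (twHom c α β) (twHom c⁻¹ α β) (twHom_comp c α β h2)
    (by
      have := twHom_comp c⁻¹ α β (by rw [inv_inv, map_inv, h1])
      rwa [inv_inv] at this)

theorem tw_apply {g : ℕ} {c : FG g} {α β : ℕ → Bool → Bool} {h1 h2} (x : FG g) :
    tw c α β h1 h2 x = twHom c α β x := rfl

theorem tw_inv_apply {g : ℕ} {c : FG g} {α β : ℕ → Bool → Bool} {h1 h2} (x : FG g) :
    (tw c α β h1 h2)⁻¹ x = twHom c⁻¹ α β x := rfl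

theorem tw_ga {g : ℕ} {c : FG g} {α β : ℕ → Bool → Bool} {h1 h2} {l : ℕ} (h : l < g) :
    tw c α β h1 h2 (ga g l) =
      (if α l true then c else 1) * ga g l * (if β l true then c⁻¹ else 1) := twHom_ga c α β h

theorem tw_gb {g : ℕ} {c : FG g} {α β : ℕ → Bool → Bool} {h1 h2} {l : ℕ} (h : l < g) :
    tw c α β h1 h2 (gb g l) =
      (if α l false then c else 1) * gb g l * (if β l false then c⁻¹ else 1) := twHom_gb c α β h

theorem tw_inv_ga {g : ℕ} {c : FG g} {α β : ℕ → Bool → Bool} {h1 h2} {l : ℕ} (h : l < g) :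
    (tw c α β h1 h2)⁻¹ (ga g l) =
      (if α l true then c⁻¹ else 1) * ga g l * (if β l true then c else 1) := by
  rw [tw_inv_apply, twHom_ga _ _ _ h, inv_inv]

theorem tw_inv_gb {g : ℕ} {c : FG g} {α β : ℕ → Bool → Bool} {h1 h2} {l : ℕ} (h : l < g) :
    (tw c α β h1 h2)⁻¹ (gb g l) =
      (if α l false then c⁻¹ else 1) * gb g l * (if β l false then c else 1) := by
  rw [tw_inv_apply, twHom_gb _ _ _ h, inv_inv]

theorem hom_zr_fix {g : ℕ} {f : FG g →* FG g} {i j : ℕ} (h : ∀ l, i ≤ l → l < j → f (gz g l) = gz g l) :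
    f (zr g i j) = zr g i j := by
  unfold zr
  rw [map_list_prod, List.map_map]
  congr 1
  refine List.map_congr_left fun l hl => ?_
  rw [List.mem_range'_1] at hl
  exact h l hl.1 (by omega)

theorem hom_zr_conj {g : ℕ} {f : FG g →* FG g} {c : FG g} {i j : ℕ}
    (h : ∀ l, i ≤ l → l < j → f (gz g l) = c * gz g l * c⁻¹) :
    f (zr g i j) = c * zr g i j * c⁻¹ := by
  have : f (zr g i j) = MulAut.conj c (zr g i j) := by
    unfold zr
    rw [map_list_prod, map_list_prod, List.map_map, List.map_map]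
    congr 1
    refine List.map_congr_left fun l hl => ?_
    rw [List.mem_range'_1] at hl
    simpa using h l hl.1 (by omega)
  simpa using this

end Pool.Agent.helper35.Hz
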