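import Mathlib
import Pool.Agent.helper35.Hz.Defs

/-! # The twists along `a_i`, `b_i`, `μ_{ij}`, `ν_{ij}` and the separating twists `δ_j` on `FG g` -/

namespace Pool.Agent.helper35.Hz

variable {g : ℕ}

theorem twHom_gz_fix (c : FG g) (α β : ℕ → Bool → Bool) {l : ℕ} (hl : l < g)
    (h1 : ∀ s, α l s = false) (h2 : ∀ s, β l s = false) : twHom c α β (gz g l) = gz g l := by
  simp [gz, twHom_ga c α β hl, twHom_gb c α β hl, h1, h2]

theorem twHom_gz_conj (c : FG g) (α β : ℕ → Bool → Bool) {l : ℕ} (hl : l < g)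
    (h1 : ∀ s, α l s = true) (h2 : ∀ s, β l s = true) :
    twHom c α β (gz g l) = c * gz g l * c⁻¹ := by
  simp [gz, twHom_ga c α β hl, twHom_gb c α β hl, h1, h2, mul_assoc]

theorem twHom_one (α β : ℕ → Bool → Bool) (x : FG g) : twHom (1 : FG g) α β x = x := by
  have : twHom (1 : FG g) α β = MonoidHom.id _ := by
    refine fg_hom_ext (fun i hi => ?_) (fun i hi => ?_)
    · simp [twHom_ga _ _ _ hi]
    · simp [twHom_gb _ _ _ hi]
  rw [this]; rfl

/-! ### the twist along `a_i`: `b_i ↦ b_i a_i⁻¹` -/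

def bA (i : ℕ) (l : ℕ) (s : Bool) : Bool := decide (l = i ∧ s = false)

theorem tauA_aux (g i : ℕ) (c : FG g) : twHom c (fun _ _ => false) (bA i) (ga g i) = ga g i := by
  by_cases hi : i < g
  · simp [twHom_ga _ _ _ hi, bA]
  · simp [ga_of_ge hi]

/-- the twist along `a_i`: `b_i ↦ b_i a_i⁻¹`, the other generators are fixed -/
def tauA (g i : ℕ) : MulAut (FG g) := tw (ga g i) (fun _ _ => false) (bA i) (tauA_aux g i _) (tauA_aux g i _)

/-! ### the twist along `b_i`: `a_i ↦ a_i b_i` -/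

def bB (i : ℕ) (l : ℕ) (s : Bool) : Bool := decide (l = i ∧ s = true)

theorem tauB_aux (g i : ℕ) (c : FG g) :
    twHom c (fun _ _ => false) (bB i) (gb g i)⁻¹ = (gb g i)⁻¹ := by
  by_cases hi : i < g
  · simp [twHom_gb _ _ _ hi, bB]
  · simp [gb_of_ge hi]

/-- the twist along `b_i`: `a_i ↦ a_i b_i`, the other generators are fixed -/
def tauB (g i : ℕ) : MulAut (FG g) :=
  tw (gb g i)⁻¹ (fun _ _ => false) (bB i) (tauB_aux g i _) (tauB_aux g i _)

/-! ### the twist along `μ_{ij}` -/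

/-- the curve `μ_{ij} = b_i a_i⁻¹ b_i⁻¹ (z_{i+1} ⋯ z_{j-1}) a_j` -/
def mu (g i j : ℕ) : FG g := gb g i * (ga g i)⁻¹ * (gb g i)⁻¹ * zr g (i + 1) j * ga g j

def αM (i j : ℕ) (l : ℕ) (s : Bool) : Bool :=
  decide ((l = i ∧ s = false) ∨ (i < l ∧ l < j) ∨ (l = j ∧ s = true))

def βM (i j : ℕ) (l : ℕ) (_ : Bool) : Bool := decide (i < l ∧ l ≤ j)

theorem tauM_aux {i j : ℕ} (h : i < j ∧ j < g) (c : FG g) (hc : c = mu g i j ∨ c⁻¹ = mu g i j) :
    twHom c (αM i j) (βM i j) (mu g i j) = mu g i j := by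
  have hi : i < g := by omega
  have key : twHom c (αM i j) (βM i j) (mu g i j) = c * mu g i j * c⁻¹ := by
    have hz : twHom c (αM i j) (βM i j) (zr g (i + 1) j) = c * zr g (i + 1) j * c⁻¹ := by
      refine hom_zr_conj fun l h1 h2 => twHom_gz_conj _ _ _ (by omega) (fun s => ?_) (fun s => ?_)
      · simp only [αM, decide_eq_true_eq]; omega
      · simp only [βM, decide_eq_true_eq]; omega
    have e1 : ¬ (i = j) := by omega
    simp [mu, hz, twHom_ga _ _ _ hi, twHom_gb _ _ _ hi, twHom_ga _ _ _ h.2, αM, βM, mul_assoc, e1, h.1]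
  rw [key]
  rcases hc with hc | hc
  · rw [hc]; group
  · rw [← hc]; group

/-- the twist along `μ_{ij}` (`i < j < g`; the identity otherwise): `b_i ↦ μ b_i`, conjugation by `μ` on the
handles between `i` and `j`, `a_j ↦ μ a_j μ⁻¹`, `b_j ↦ b_j μ⁻¹`. -/
def tauM (g i j : ℕ) : MulAut (FG g) :=
  if h : i < j ∧ j < g then
    tw (mu g i j) (αM i j) (βM i j) (tauM_aux h _ (Or.inl rfl)) (tauM_aux h _ (Or.inr (inv_inv _)))
  else 1

/-! ### the twist along `ν_{ij}` -/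

/-- the curve `ν_{ij} = b_i⁻¹ (z_{i+1} ⋯ z_{j-1}) a_j b_j a_j⁻¹` -/
def nu (g i j : ℕ) : FG g := (gb g i)⁻¹ * zr g (i + 1) j * ga g j * gb g j * (ga g j)⁻¹

def αN (i j : ℕ) (l : ℕ) (s : Bool) : Bool :=
  decide ((l = i ∧ s = false) ∨ (i < l ∧ l < j) ∨ (l = j ∧ s = true))

def βN (i j : ℕ) (l : ℕ) (_ : Bool) : Bool := decide (i ≤ l ∧ l < j)

theorem tauN_aux {i j : ℕ} (h : i < j ∧ j < g) (c : FG g) (hc : c = nu g i j ∨ c⁻¹ = nu g i j) :
    twHom c (αN i j) (βN i j) (nu g i j) = nu g i j := by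
  have hi : i < g := by omega
  have key : twHom c (αN i j) (βN i j) (nu g i j) = c * nu g i j * c⁻¹ := by
    have hz : twHom c (αN i j) (βN i j) (zr g (i + 1) j) = c * zr g (i + 1) j * c⁻¹ := by
      refine hom_zr_conj fun l h1 h2 => twHom_gz_conj _ _ _ (by omega) (fun s => ?_) (fun s => ?_)
      · simp only [αN, decide_eq_true_eq]; omega
      · simp only [βN, decide_eq_true_eq]; omega
    have e1 : ¬ (i = j) := by omega
    have e2 : ¬ (j = i) := by omega
    simp [nu, hz, twHom_ga _ _ _ hi, twHom_gb _ _ _ hi, twHom_ga _ _ _ h.2, twHom_gb _ _ _ h.2, αN, βN,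
      mul_assoc, e1, e2, h.1]
  rw [key]
  rcases hc with hc | hc
  · rw [hc]; group
  · rw [← hc]; group

/-- the twist along `ν_{ij}` (`i < j < g`; the identity otherwise): `b_i ↦ ν b_i ν⁻¹`, `a_i ↦ a_i ν⁻¹`,
conjugation by `ν` on the handles between `i` and `j`, `a_j ↦ ν a_j`. -/
def tauN (g i j : ℕ) : MulAut (FG g) :=
  if h : i < j ∧ j < g then
    tw (nu g i j) (αN i j) (βN i j) (tauN_aux h _ (Or.inl rfl)) (tauN_aux h _ (Or.inr (inv_inv _)))
  else 1

/-! ### the separating twist `δ_j` -/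

/-- the separating twist `δ_j`: conjugation by `∂_j = z_0 ⋯ z_{j-1}` on the handles `< j` -/
def αD (j : ℕ) (l : ℕ) (_ : Bool) : Bool := decide (l < j)

theorem delta_aux {j : ℕ} (h : j ≤ g) (c : FG g) (hc : c = zr g 0 j ∨ c⁻¹ = zr g 0 j) :
    twHom c (αD j) (αD j) (zr g 0 j) = zr g 0 j := by
  have key : twHom c (αD j) (αD j) (zr g 0 j) = c * zr g 0 j * c⁻¹ := by
    refine hom_zr_conj fun l h1 h2 => twHom_gz_conj _ _ _ (by omega) (fun s => ?_) (fun s => ?_) <;>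
      simpa [αD] using h2
  rw [key]
  rcases hc with hc | hc
  · rw [hc]; group
  · rw [← hc]; group

/-- the separating twist `δ_j` (`j ≤ g`; the identity otherwise) -/
def delta (g j : ℕ) : MulAut (FG g) :=
  if h : j ≤ g then
    tw (zr g 0 j) (αD j) (αD j) (delta_aux h _ (Or.inl rfl)) (delta_aux h _ (Or.inr (inv_inv _)))
  else 1

end Pool.Agent.helper35.Hz
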