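import Mathlib
import Pool.Agent.helper35.Hz.Twists

/-! # Pushing a foot of the handle `m` along loops in the handles `< m` -/

namespace Pool.Agent.helper35.Hz

variable {g : ℕ}

/-! `D = a_m`. Push along `a_i`. -/

def pAA (g m i l : ℕ) : FG g :=
  if l = i then (ga g m)⁻¹ * ga g i * ga g m
  else if i < l ∧ l < m then
    ((ga g m)⁻¹ * (ga g i)⁻¹ * ga g m * ga g i) * ga g l * ((ga g m)⁻¹ * (ga g i)⁻¹ * ga g m * ga g i)⁻¹
  else if l = m then (ga g m)⁻¹ * (ga g i)⁻¹ * ga g m * ga g i * ga g m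
  else ga g l

def pAB (g m i l : ℕ) : FG g :=
  if l = i then (ga g m)⁻¹ * (ga g i)⁻¹ * ga g m * ga g i * gb g i * ga g m
  else if i < l ∧ l < m then
    ((ga g m)⁻¹ * (ga g i)⁻¹ * ga g m * ga g i) * gb g l * ((ga g m)⁻¹ * (ga g i)⁻¹ * ga g m * ga g i)⁻¹
  else if l = m then gb g m * ga g i * ga g m
  else gb g l

def pAA' (g m i l : ℕ) : FG g :=
  if l = i then ga g i * ga g m * ga g i * (ga g m)⁻¹ * (ga g i)⁻¹
  else if i < l ∧ l < m then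
    (ga g i * ga g m * (ga g i)⁻¹ * (ga g m)⁻¹) * ga g l * (ga g i * ga g m * (ga g i)⁻¹ * (ga g m)⁻¹)⁻¹
  else if l = m then ga g i * ga g m * (ga g i)⁻¹
  else ga g l

def pAB' (g m i l : ℕ) : FG g :=
  if l = i then ga g i * ga g m * (ga g i)⁻¹ * (ga g m)⁻¹ * gb g i * (ga g i * (ga g m)⁻¹ * (ga g i)⁻¹)
  else if i < l ∧ l < m then
    (ga g i * ga g m * (ga g i)⁻¹ * (ga g m)⁻¹) * gb g l * (ga g i * ga g m * (ga g i)⁻¹ * (ga g m)⁻¹)⁻¹
  else if l = m then gb g m * (ga g m)⁻¹ * (ga g i)⁻¹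
  else gb g l

/-! Push along `b_i`. -/

def pBA (g m i l : ℕ) : FG g :=
  if l = i then ga g i * (gb g i)⁻¹ * (ga g m)⁻¹ * gb g i
  else if i < l ∧ l < m then
    ((gb g i)⁻¹ * ga g m * gb g i * (ga g m)⁻¹) * ga g l * ((gb g i)⁻¹ * ga g m * gb g i * (ga g m)⁻¹)⁻¹
  else if l = m then (gb g i)⁻¹ * ga g m * gb g i
  else ga g l

def pBB (g m i l : ℕ) : FG g :=
  if l = i then (gb g i)⁻¹ * ga g m * gb g i * (ga g m)⁻¹ * gb g i
  else if i < l ∧ l < m then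
    ((gb g i)⁻¹ * ga g m * gb g i * (ga g m)⁻¹) * gb g l * ((gb g i)⁻¹ * ga g m * gb g i * (ga g m)⁻¹)⁻¹
  else if l = m then gb g m * (ga g m)⁻¹ * gb g i
  else gb g l

def pBA' (g m i l : ℕ) : FG g :=
  if l = i then ga g i * ga g m
  else if i < l ∧ l < m then
    ((ga g m)⁻¹ * gb g i * ga g m * (gb g i)⁻¹) * ga g l * ((ga g m)⁻¹ * gb g i * ga g m * (gb g i)⁻¹)⁻¹
  else if l = m then (ga g m)⁻¹ * gb g i * ga g m * (gb g i)⁻¹ * ga g m
  else ga g l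

def pBB' (g m i l : ℕ) : FG g :=
  if l = i then (ga g m)⁻¹ * gb g i * ga g m
  else if i < l ∧ l < m then
    ((ga g m)⁻¹ * gb g i * ga g m * (gb g i)⁻¹) * gb g l * ((ga g m)⁻¹ * gb g i * ga g m * (gb g i)⁻¹)⁻¹
  else if l = m then gb g m * (gb g i)⁻¹ * ga g m
  else gb g l

section
variable {m i : ℕ} (h : i < m ∧ m < g)
include h

set_option linter.unusedSimpArgs false

theorem pA_h1 (l : ℕ) (hl : l < g) : mkHom g (pAA' g m i) (pAB' g m i) (pAA g m i l) = ga g l := by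
  have hi : i < g := by omega
  have e1 : m ≠ i := by omega
  have e2 : ¬ (i < i) := by omega
  have e3 : ¬ (m < m) := by omega
  unfold pAA
  split_ifs with c1 c2 c3
  · subst c1
    simp [mkHom_ga _ _ hl, mkHom_gb _ _ hl, mkHom_ga _ _ h.2, mkHom_gb _ _ h.2, pAA', pAB', e1, e2, e3,
      mul_assoc]
  · simp [mkHom_ga _ _ hl, mkHom_gb _ _ hl, mkHom_ga _ _ h.2, mkHom_gb _ _ h.2, mkHom_ga _ _ hi,
      mkHom_gb _ _ hi, pAA', pAB', e1, e2, e3, c1, c2, mul_assoc]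
  · subst c3
    simp [mkHom_ga _ _ hl, mkHom_gb _ _ hl, mkHom_ga _ _ hi, mkHom_gb _ _ hi, pAA', pAB', e1, e2, e3,
      mul_assoc]
  · simp [mkHom_ga _ _ hl, mkHom_gb _ _ hl, pAA', pAB', c1, c2, c3]

theorem pA_h2 (l : ℕ) (hl : l < g) : mkHom g (pAA' g m i) (pAB' g m i) (pAB g m i l) = gb g l := by
  have hi : i < g := by omega
  have e1 : m ≠ i := by omega
  have e2 : ¬ (i < i) := by omega
  have e3 : ¬ (m < m) := by omega
  unfold pAB
  split_ifs with c1 c2 c3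
  · subst c1
    simp [mkHom_ga _ _ hl, mkHom_gb _ _ hl, mkHom_ga _ _ h.2, mkHom_gb _ _ h.2, pAA', pAB', e1, e2, e3,
      mul_assoc]
  · simp [mkHom_ga _ _ hl, mkHom_gb _ _ hl, mkHom_ga _ _ h.2, mkHom_gb _ _ h.2, mkHom_ga _ _ hi,
      mkHom_gb _ _ hi, pAA', pAB', e1, e2, e3, c1, c2, mul_assoc]
  · subst c3
    simp [mkHom_ga _ _ hl, mkHom_gb _ _ hl, mkHom_ga _ _ hi, mkHom_gb _ _ hi, pAA', pAB', e1, e2, e3,
      mul_assoc]
  · simp [mkHom_ga _ _ hl, mkHom_gb _ _ hl, pAA', pAB', c1, c2, c3]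

theorem pA_h3 (l : ℕ) (hl : l < g) : mkHom g (pAA g m i) (pAB g m i) (pAA' g m i l) = ga g l := by
  have hi : i < g := by omega
  have e1 : m ≠ i := by omega
  have e2 : ¬ (i < i) := by omega
  have e3 : ¬ (m < m) := by omega
  unfold pAA'
  split_ifs with c1 c2 c3
  · subst c1
    simp [mkHom_ga _ _ hl, mkHom_gb _ _ hl, mkHom_ga _ _ h.2, mkHom_gb _ _ h.2, pAA, pAB, e1, e2, e3,
      mul_assoc]
  · simp [mkHom_ga _ _ hl, mkHom_gb _ _ hl, mkHom_ga _ _ h.2, mkHom_gb _ _ h.2, mkHom_ga _ _ hi,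
      mkHom_gb _ _ hi, pAA, pAB, e1, e2, e3, c1, c2, mul_assoc]
  · subst c3
    simp [mkHom_ga _ _ hl, mkHom_gb _ _ hl, mkHom_ga _ _ hi, mkHom_gb _ _ hi, pAA, pAB, e1, e2, e3,
      mul_assoc]
  · simp [mkHom_ga _ _ hl, mkHom_gb _ _ hl, pAA, pAB, c1, c2, c3]

theorem pA_h4 (l : ℕ) (hl : l < g) : mkHom g (pAA g m i) (pAB g m i) (pAB' g m i l) = gb g l := by
  have hi : i < g := by omega
  have e1 : m ≠ i := by omega
  have e2 : ¬ (i < i) := by omega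
  have e3 : ¬ (m < m) := by omega
  unfold pAB'
  split_ifs with c1 c2 c3
  · subst c1
    simp [mkHom_ga _ _ hl, mkHom_gb _ _ hl, mkHom_ga _ _ h.2, mkHom_gb _ _ h.2, pAA, pAB, e1, e2, e3,
      mul_assoc]
  · simp [mkHom_ga _ _ hl, mkHom_gb _ _ hl, mkHom_ga _ _ h.2, mkHom_gb _ _ h.2, mkHom_ga _ _ hi,
      mkHom_gb _ _ hi, pAA, pAB, e1, e2, e3, c1, c2, mul_assoc]
  · subst c3
    simp [mkHom_ga _ _ hl, mkHom_gb _ _ hl, mkHom_ga _ _ hi, mkHom_gb _ _ hi, pAA, pAB, e1, e2, e3,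
      mul_assoc]
  · simp [mkHom_ga _ _ hl, mkHom_gb _ _ hl, pAA, pAB, c1, c2, c3]

theorem pB_h1 (l : ℕ) (hl : l < g) : mkHom g (pBA' g m i) (pBB' g m i) (pBA g m i l) = ga g l := by
  have hi : i < g := by omega
  have e1 : m ≠ i := by omega
  have e2 : ¬ (i < i) := by omega
  have e3 : ¬ (m < m) := by omega
  unfold pBA
  split_ifs with c1 c2 c3
  · subst c1
    simp [mkHom_ga _ _ hl, mkHom_gb _ _ hl, mkHom_ga _ _ h.2, mkHom_gb _ _ h.2, pBA', pBB', e1, e2, e3,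
      mul_assoc]
  · simp [mkHom_ga _ _ hl, mkHom_gb _ _ hl, mkHom_ga _ _ h.2, mkHom_gb _ _ h.2, mkHom_ga _ _ hi,
      mkHom_gb _ _ hi, pBA', pBB', e1, e2, e3, c1, c2, mul_assoc]
  · subst c3
    simp [mkHom_ga _ _ hl, mkHom_gb _ _ hl, mkHom_ga _ _ hi, mkHom_gb _ _ hi, pBA', pBB', e1, e2, e3,
      mul_assoc]
  · simp [mkHom_ga _ _ hl, mkHom_gb _ _ hl, pBA', pBB', c1, c2, c3]

theorem pB_h2 (l : ℕ) (hl : l < g) : mkHom g (pBA' g m i) (pBB' g m i) (pBB g m i l) = gb g l := by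
  have hi : i < g := by omega
  have e1 : m ≠ i := by omega
  have e2 : ¬ (i < i) := by omega
  have e3 : ¬ (m < m) := by omega
  unfold pBB
  split_ifs with c1 c2 c3
  · subst c1
    simp [mkHom_ga _ _ hl, mkHom_gb _ _ hl, mkHom_ga _ _ h.2, mkHom_gb _ _ h.2, pBA', pBB', e1, e2, e3,
      mul_assoc]
  · simp [mkHom_ga _ _ hl, mkHom_gb _ _ hl, mkHom_ga _ _ h.2, mkHom_gb _ _ h.2, mkHom_ga _ _ hi,
      mkHom_gb _ _ hi, pBA', pBB', e1, e2, e3, c1, c2, mul_assoc]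
  · subst c3
    simp [mkHom_ga _ _ hl, mkHom_gb _ _ hl, mkHom_ga _ _ hi, mkHom_gb _ _ hi, pBA', pBB', e1, e2, e3,
      mul_assoc]
  · simp [mkHom_ga _ _ hl, mkHom_gb _ _ hl, pBA', pBB', c1, c2, c3]

theorem pB_h3 (l : ℕ) (hl : l < g) : mkHom g (pBA g m i) (pBB g m i) (pBA' g m i l) = ga g l := by
  have hi : i < g := by omega
  have e1 : m ≠ i := by omega
  have e2 : ¬ (i < i) := by omega
  have e3 : ¬ (m < m) := by omega
  unfold pBA'
  split_ifs with c1 c2 c3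
  · subst c1
    simp [mkHom_ga _ _ hl, mkHom_gb _ _ hl, mkHom_ga _ _ h.2, mkHom_gb _ _ h.2, pBA, pBB, e1, e2, e3,
      mul_assoc]
  · simp [mkHom_ga _ _ hl, mkHom_gb _ _ hl, mkHom_ga _ _ h.2, mkHom_gb _ _ h.2, mkHom_ga _ _ hi,
      mkHom_gb _ _ hi, pBA, pBB, e1, e2, e3, c1, c2, mul_assoc]
  · subst c3
    simp [mkHom_ga _ _ hl, mkHom_gb _ _ hl, mkHom_ga _ _ hi, mkHom_gb _ _ hi, pBA, pBB, e1, e2, e3,
      mul_assoc]
  · simp [mkHom_ga _ _ hl, mkHom_gb _ _ hl, pBA, pBB, c1, c2, c3]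

theorem pB_h4 (l : ℕ) (hl : l < g) : mkHom g (pBA g m i) (pBB g m i) (pBB' g m i l) = gb g l := by
  have hi : i < g := by omega
  have e1 : m ≠ i := by omega
  have e2 : ¬ (i < i) := by omega
  have e3 : ¬ (m < m) := by omega
  unfold pBB'
  split_ifs with c1 c2 c3
  · subst c1
    simp [mkHom_ga _ _ hl, mkHom_gb _ _ hl, mkHom_ga _ _ h.2, mkHom_gb _ _ h.2, pBA, pBB, e1, e2, e3,
      mul_assoc]
  · simp [mkHom_ga _ _ hl, mkHom_gb _ _ hl, mkHom_ga _ _ h.2, mkHom_gb _ _ h.2, mkHom_ga _ _ hi,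
      mkHom_gb _ _ hi, pBA, pBB, e1, e2, e3, c1, c2, mul_assoc]
  · subst c3
    simp [mkHom_ga _ _ hl, mkHom_gb _ _ hl, mkHom_ga _ _ hi, mkHom_gb _ _ hi, pBA, pBB, e1, e2, e3,
      mul_assoc]
  · simp [mkHom_ga _ _ hl, mkHom_gb _ _ hl, pBA, pBB, c1, c2, c3]

end

/-- push of a foot of the handle `m` along `a_i` (`i < m < g`, the identity otherwise) -/
def pushA (g m i : ℕ) : MulAut (FG g) :=
  if h : i < m ∧ m < g then
    mkAut g (pAA g m i) (pAB g m i) (pAA' g m i) (pAB' g m i) (pA_h1 h) (pA_h2 h) (pA_h3 h) (pA_h4 h)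
  else 1

/-- push of a foot of the handle `m` along `b_i` (`i < m < g`, the identity otherwise) -/
def pushB (g m i : ℕ) : MulAut (FG g) :=
  if h : i < m ∧ m < g then
    mkAut g (pBA g m i) (pBB g m i) (pBA' g m i) (pBB' g m i) (pB_h1 h) (pB_h2 h) (pB_h3 h) (pB_h4 h)
  else 1

/-- the push homomorphism: loops in the handles `< m` act on `FG g` -/
def phi (g m : ℕ) : FG m →* MulAut (FG g) := mkHom m (pushA g m) (pushB g m)

section
variable {m i : ℕ} (h : i < m ∧ m < g)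
include h

theorem pushA_ga {l : ℕ} (hl : l < g) : pushA g m i (ga g l) = pAA g m i l := by
  rw [pushA, dif_pos h, mkAut_ga hl]

theorem pushA_gb {l : ℕ} (hl : l < g) : pushA g m i (gb g l) = pAB g m i l := by
  rw [pushA, dif_pos h, mkAut_gb hl]

theorem pushA_inv_ga {l : ℕ} (hl : l < g) : (pushA g m i)⁻¹ (ga g l) = pAA' g m i l := by
  rw [pushA, dif_pos h, mkAut_inv_ga hl]

theorem pushA_inv_gb {l : ℕ} (hl : l < g) : (pushA g m i)⁻¹ (gb g l) = pAB' g m i l := by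
  rw [pushA, dif_pos h, mkAut_inv_gb hl]

theorem pushB_ga {l : ℕ} (hl : l < g) : pushB g m i (ga g l) = pBA g m i l := by
  rw [pushB, dif_pos h, mkAut_ga hl]

theorem pushB_gb {l : ℕ} (hl : l < g) : pushB g m i (gb g l) = pBB g m i l := by
  rw [pushB, dif_pos h, mkAut_gb hl]

theorem pushB_inv_ga {l : ℕ} (hl : l < g) : (pushB g m i)⁻¹ (ga g l) = pBA' g m i l := by
  rw [pushB, dif_pos h, mkAut_inv_ga hl]

theorem pushB_inv_gb {l : ℕ} (hl : l < g) : (pushB g m i)⁻¹ (gb g l) = pBB' g m i l := by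
  rw [pushB, dif_pos h, mkAut_inv_gb hl]

end

end Pool.Agent.helper35.Hz
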