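import Mathlib
import Pool.Agent.helper35.Hz.Push

/-! # All the automorphisms fix the boundary word `R` -/

namespace Pool.Agent.helper35.Hz

variable {g : ℕ}

theorem R_split2 {i j : ℕ} (h : i < j) (hj : j < g) :
    R g = zr g 0 i * (gz g i * zr g (i + 1) j * gz g j) * zr g (j + 1) g := by
  unfold R
  rw [zr_split g (Nat.zero_le i) (by omega : i ≤ g), zr_split g (by omega : i ≤ j) (by omega : j ≤ g),
    zr_succ_left g h, zr_succ_left g hj]
  simp [mul_assoc]

theorem R_split1 {i : ℕ} (h : i < g) : R g = zr g 0 i * gz g i * zr g (i + 1) g := by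
  unfold R
  rw [zr_split g (Nat.zero_le i) (by omega : i ≤ g), zr_succ_left g h]
  simp [mul_assoc]

theorem tauA_R (g i : ℕ) : tauA g i (R g) = R g := by
  rw [tauA, tw_apply]
  refine hom_zr_fix fun l _ hl => ?_
  by_cases e : l = i
  · subst e; simp [gz, twHom_ga _ _ _ hl, twHom_gb _ _ _ hl, bA, mul_assoc]
  · exact twHom_gz_fix _ _ _ hl (fun _ => rfl) (fun s => by simp [bA, e])

theorem tauB_R (g i : ℕ) : tauB g i (R g) = R g := by
  rw [tauB, tw_apply]
  refine hom_zr_fix fun l _ hl => ?_
  by_cases e : l = i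
  · subst e; simp [gz, twHom_ga _ _ _ hl, twHom_gb _ _ _ hl, bB, mul_assoc]
  · exact twHom_gz_fix _ _ _ hl (fun _ => rfl) (fun s => by simp [bB, e])

theorem tauM_R (g i j : ℕ) : tauM g i j (R g) = R g := by
  by_cases h : i < j ∧ j < g
  swap
  · simp [tauM, h]
  have hi : i < g := by omega
  have e1 : ¬ (i = j) := by omega
  have e2 : ¬ (j = i) := by omega
  rw [tauM, dif_pos h, tw_apply, R_split2 h.1 h.2, map_mul, map_mul]
  have h1 : twHom (mu g i j) (αM i j) (βM i j) (zr g 0 i) = zr g 0 i :=
    hom_zr_fix fun l _ hl => twHom_gz_fix _ _ _ (by omega)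
      (fun s => by simp only [αM, decide_eq_false_iff_not]; omega)
      (fun s => by simp only [βM, decide_eq_false_iff_not]; omega)
  have h2 : twHom (mu g i j) (αM i j) (βM i j) (zr g (j + 1) g) = zr g (j + 1) g :=
    hom_zr_fix fun l _ hl => twHom_gz_fix _ _ _ (by omega)
      (fun s => by simp only [αM, decide_eq_false_iff_not]; omega)
      (fun s => by simp only [βM, decide_eq_false_iff_not]; omega)
  have h3 : twHom (mu g i j) (αM i j) (βM i j) (zr g (i + 1) j) = mu g i j * zr g (i + 1) j * (mu g i j)⁻¹ :=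
    hom_zr_conj fun l _ hl => twHom_gz_conj _ _ _ (by omega)
      (fun s => by simp only [αM, decide_eq_true_eq]; omega)
      (fun s => by simp only [βM, decide_eq_true_eq]; omega)
  rw [h1, h2]
  congr 2
  rw [map_mul, map_mul, h3]
  simp [gz, twHom_ga _ _ _ hi, twHom_gb _ _ _ hi, twHom_ga _ _ _ h.2, twHom_gb _ _ _ h.2, αM, βM, e1, e2,
    h.1]
  simp [mu, mul_assoc]

theorem tauN_R (g i j : ℕ) : tauN g i j (R g) = R g := by
  by_cases h : i < j ∧ j < g
  swap
  · simp [tauN, h]
  have hi : i < g := by omega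
  have e1 : ¬ (i = j) := by omega
  have e2 : ¬ (j = i) := by omega
  rw [tauN, dif_pos h, tw_apply, R_split2 h.1 h.2, map_mul, map_mul]
  have h1 : twHom (nu g i j) (αN i j) (βN i j) (zr g 0 i) = zr g 0 i :=
    hom_zr_fix fun l _ hl => twHom_gz_fix _ _ _ (by omega)
      (fun s => by simp only [αN, decide_eq_false_iff_not]; omega)
      (fun s => by simp only [βN, decide_eq_false_iff_not]; omega)
  have h2 : twHom (nu g i j) (αN i j) (βN i j) (zr g (j + 1) g) = zr g (j + 1) g :=
    hom_zr_fix fun l _ hl => twHom_gz_fix _ _ _ (by omega)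
      (fun s => by simp only [αN, decide_eq_false_iff_not]; omega)
      (fun s => by simp only [βN, decide_eq_false_iff_not]; omega)
  have h3 : twHom (nu g i j) (αN i j) (βN i j) (zr g (i + 1) j) = nu g i j * zr g (i + 1) j * (nu g i j)⁻¹ :=
    hom_zr_conj fun l _ hl => twHom_gz_conj _ _ _ (by omega)
      (fun s => by simp only [αN, decide_eq_true_eq]; omega)
      (fun s => by simp only [βN, decide_eq_true_eq]; omega)
  rw [h1, h2]
  congr 2
  rw [map_mul, map_mul, h3]
  simp [gz, twHom_ga _ _ _ hi, twHom_gb _ _ _ hi, twHom_ga _ _ _ h.2, twHom_gb _ _ _ h.2, αN, βN, e1, e2,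
    h.1]
  simp [nu, mul_assoc]

theorem delta_R (g j : ℕ) : delta g j (R g) = R g := by
  by_cases h : j ≤ g
  swap
  · simp [delta, h]
  rw [delta, dif_pos h, tw_apply]
  have hR : R g = zr g 0 j * zr g j g := zr_split g (Nat.zero_le j) h
  rw [hR, map_mul, delta_aux h _ (Or.inl rfl)]
  congr 1
  exact hom_zr_fix fun l h1 hl => twHom_gz_fix _ _ _ (by omega)
      (fun s => by simp only [αD, decide_eq_false_iff_not]; omega)
      (fun s => by simp only [αD, decide_eq_false_iff_not]; omega)

/-- a homomorphism that conjugates the generators of handle `l` conjugates `z_l` -/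
theorem gz_conj {f : FG g →* FG g} {c : FG g} {l : ℕ} (h1 : f (ga g l) = c * ga g l * c⁻¹)
    (h2 : f (gb g l) = c * gb g l * c⁻¹) : f (gz g l) = c * gz g l * c⁻¹ := by
  simp [gz, h1, h2, mul_assoc]

theorem gz_fix {f : FG g →* FG g} {l : ℕ} (h1 : f (ga g l) = ga g l)
    (h2 : f (gb g l) = gb g l) : f (gz g l) = gz g l := by
  simp [gz, h1, h2]

theorem pushA_R (g m i : ℕ) : pushA g m i (R g) = R g := by
  by_cases h : i < m ∧ m < g
  swap
  · simp [pushA, h]
  have hi : i < g := by omega
  have e1 : ¬ (m = i) := by omega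
  have e3 : ¬ (m < m) := by omega
  set f : FG g →* FG g := (pushA g m i).toMonoidHom with hf
  have fa : ∀ l, l < g → f (ga g l) = pAA g m i l := fun l hl => pushA_ga h hl
  have fb : ∀ l, l < g → f (gb g l) = pAB g m i l := fun l hl => pushA_gb h hl
  change f (R g) = R g
  rw [R_split2 h.1 h.2, map_mul, map_mul]
  have h1 : f (zr g 0 i) = zr g 0 i :=
    hom_zr_fix fun l _ hl => gz_fix
      (by rw [fa l (by omega), pAA, if_neg (by omega), if_neg (by omega), if_neg (by omega)])
      (by rw [fb l (by omega), pAB, if_neg (by omega), if_neg (by omega), if_neg (by omega)])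
  have h2 : f (zr g (m + 1) g) = zr g (m + 1) g :=
    hom_zr_fix fun l _ hl => gz_fix
      (by rw [fa l (by omega), pAA, if_neg (by omega), if_neg (by omega), if_neg (by omega)])
      (by rw [fb l (by omega), pAB, if_neg (by omega), if_neg (by omega), if_neg (by omega)])
  have h3 : f (zr g (i + 1) m) = ((ga g m)⁻¹ * (ga g i)⁻¹ * ga g m * ga g i) * zr g (i + 1) m *
      ((ga g m)⁻¹ * (ga g i)⁻¹ * ga g m * ga g i)⁻¹ :=
    hom_zr_conj fun l _ hl => gz_conj
      (by rw [fa l (by omega), pAA, if_neg (by omega), if_pos (by omega)])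
      (by rw [fb l (by omega), pAB, if_neg (by omega), if_pos (by omega)])
  rw [h1, h2]
  congr 2
  rw [map_mul, map_mul, h3]
  simp [gz, fa i hi, fb i hi, fa m h.2, fb m h.2, pAA, pAB, e1, mul_assoc]

theorem pushB_R (g m i : ℕ) : pushB g m i (R g) = R g := by
  by_cases h : i < m ∧ m < g
  swap
  · simp [pushB, h]
  have hi : i < g := by omega
  have e1 : ¬ (m = i) := by omega
  have e3 : ¬ (m < m) := by omega
  set f : FG g →* FG g := (pushB g m i).toMonoidHom with hf
  have fa : ∀ l, l < g → f (ga g l) = pBA g m i l := fun l hl => pushB_ga h hl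
  have fb : ∀ l, l < g → f (gb g l) = pBB g m i l := fun l hl => pushB_gb h hl
  change f (R g) = R g
  rw [R_split2 h.1 h.2, map_mul, map_mul]
  have h1 : f (zr g 0 i) = zr g 0 i :=
    hom_zr_fix fun l _ hl => gz_fix
      (by rw [fa l (by omega), pBA, if_neg (by omega), if_neg (by omega), if_neg (by omega)])
      (by rw [fb l (by omega), pBB, if_neg (by omega), if_neg (by omega), if_neg (by omega)])
  have h2 : f (zr g (m + 1) g) = zr g (m + 1) g :=
    hom_zr_fix fun l _ hl => gz_fix
      (by rw [fa l (by omega), pBA, if_neg (by omega), if_neg (by omega), if_neg (by omega)])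
      (by rw [fb l (by omega), pBB, if_neg (by omega), if_neg (by omega), if_neg (by omega)])
  have h3 : f (zr g (i + 1) m) = ((gb g i)⁻¹ * ga g m * gb g i * (ga g m)⁻¹) * zr g (i + 1) m *
      ((gb g i)⁻¹ * ga g m * gb g i * (ga g m)⁻¹)⁻¹ :=
    hom_zr_conj fun l _ hl => gz_conj
      (by rw [fa l (by omega), pBA, if_neg (by omega), if_pos (by omega)])
      (by rw [fb l (by omega), pBB, if_neg (by omega), if_pos (by omega)])
  rw [h1, h2]
  congr 2
  rw [map_mul, map_mul, h3]
  simp [gz, fa i hi, fb i hi, fa m h.2, fb m h.2, pBA, pBB, e1, mul_assoc]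

end Pool.Agent.helper35.Hz
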