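import Mathlib
import Pool.Agent.helper35.Hz.FixR

/-! # The closed surface group, its outer automorphisms, the mapping class group

`Map(Σ_g)` is realised (Dehn-Nielsen-Baer) inside `Out(π_1 Σ_g)` as the subgroup generated by the
Lickorish twists. -/

namespace Pool.Agent.helper35.Hz

/-- the fundamental group of the closed surface of genus `g` -/
abbrev Sg (g : ℕ) := PresentedGroup ({R g} : Set (FG g))

/-- automorphisms of `FG g` that fix the boundary word -/
def AR (g : ℕ) : Subgroup (MulAut (FG g)) where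
  carrier := {φ | φ (R g) = R g}
  mul_mem' := by
    intro φ ψ h1 h2
    change φ (ψ (R g)) = R g
    rw [h2, h1]
  one_mem' := rfl
  inv_mem' := by
    intro φ h
    change φ.symm (R g) = R g
    rw [MulEquiv.symm_apply_eq]
    exact h.symm

theorem mem_AR {g : ℕ} {φ : MulAut (FG g)} : φ ∈ AR g ↔ φ (R g) = R g := Iff.rfl

theorem AR_map {g : ℕ} (φ : AR g) :
    (Subgroup.normalClosure ({R g} : Set (FG g))).map ((φ : MulAut (FG g)) : FG g →* FG g) =
      Subgroup.normalClosure ({R g} : Set (FG g)) := by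
  rw [Subgroup.map_normalClosure _ _ (φ : MulAut (FG g)).surjective]
  congr 1
  rw [Set.image_singleton]
  exact congrArg _ φ.2

/-- the automorphism of `π_1 Σ_g` induced by an automorphism of the free group fixing `R` -/
def toAutS (g : ℕ) : AR g →* MulAut (Sg g) where
  toFun φ := QuotientGroup.congr _ _ (φ : MulAut (FG g)) (AR_map φ)
  map_one' := by
    ext x
    induction x using QuotientGroup.induction_on
    rfl
  map_mul' φ ψ := by
    ext x
    induction x using QuotientGroup.induction_on
    rfl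

theorem toAutS_mk {g : ℕ} (φ : AR g) (x : FG g) :
    toAutS g φ (PresentedGroup.mk {R g} x) = PresentedGroup.mk {R g} ((φ : MulAut (FG g)) x) := rfl

instance innNormal (G : Type*) [Group G] : (MulAut.conj (G := G)).range.Normal where
  conj_mem := by
    rintro _ ⟨x, rfl⟩ φ
    refine ⟨φ x, ?_⟩
    ext y
    simp [MulAut.conj_apply]

/-- `Out(π_1 Σ_g)` -/
abbrev OutS (g : ℕ) := MulAut (Sg g) ⧸ (MulAut.conj (G := Sg g)).range

/-- the outer automorphism of `π_1 Σ_g` induced by an automorphism of the free group fixing `R` -/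
def toOut (g : ℕ) : AR g →* OutS g := (QuotientGroup.mk' _).comp (toAutS g)

/-- the Lickorish twists: along `a_i` and `b_i` (`i < g`) and along
`c_i = b_i a_i⁻¹ b_i⁻¹ a_{i+1}` (`i < g - 1`) -/
def lick (g : ℕ) : Fin g ⊕ Fin g ⊕ Fin (g - 1) → OutS g
  | Sum.inl i => toOut g ⟨tauA g i, tauA_R g i⟩
  | Sum.inr (Sum.inl i) => toOut g ⟨tauB g i, tauB_R g i⟩
  | Sum.inr (Sum.inr i) => toOut g ⟨tauM g i (i + 1), tauM_R g i (i + 1)⟩

/-- the mapping class group `Map_g`, generated by the Lickorish twists -/
def Mod (g : ℕ) : Subgroup (OutS g) := Subgroup.closure (Set.range (lick g))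

/-- the positive Dehn twists: the conjugates (under `Map_g`) of the twist along `a_0` (non-separating
curves) and of the twists `δ_j`, `1 ≤ j < g` (separating curves) -/
def PosTwist (g : ℕ) : Set (OutS g) :=
  {f | ∃ γ ∈ Mod g, f = γ * toOut g ⟨tauA g 0, tauA_R g 0⟩ * γ⁻¹ ∨
    ∃ j, 1 ≤ j ∧ j < g ∧ f = γ * toOut g ⟨delta g j, delta_R g j⟩ * γ⁻¹}

end Pool.Agent.helper35.Hz
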