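import Mathlib
import Pool.Agent.helper35.Hz.Surface

/-! # Definitions shared by the modules S, D, C, E, B, K, G -/

namespace Pool.Agent.helper35.Hz

/-- alternating product `y 0 * (y 1)⁻¹ * y 2 * ...` (`j` factors) -/
def altP {O : Type*} [Group O] (y : ℕ → O) (j : ℕ) : O :=
  ((List.range j).map fun i => if i % 2 = 0 then y i else (y i)⁻¹).prod

/-- alternating product `(y 0)⁻¹ * y 1 * (y 2)⁻¹ * ...` (`j` factors) -/
def altQ {O : Type*} [Group O] (y : ℕ → O) (j : ℕ) : O :=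
  ((List.range j).map fun i => if i % 2 = 0 then (y i)⁻¹ else y i).prod

/-- `G j` acts on the `y m` like a braid generator -/
structure IsBraidLike {O : Type*} [Group O] (k : ℕ) (y : ℕ → O) (G : ℕ → MulAut O) : Prop where
  one : ∀ j, j < 2 * k → G j (y j) = y (j + 1)
  two : ∀ j, j < 2 * k → G j (y (j + 1)) = y (j + 1) * (y j)⁻¹ * y (j + 1)
  fix : ∀ j, j < 2 * k → ∀ m, m ≤ 2 * k → m ≠ j → m ≠ j + 1 → G j (y m) = y m

/-- `X_i = a_i b_i a_{i+1} b_{i+1} ⋯ a_{k-1} b_{k-1}` (handles shifted by `off`) -/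
def Xw (g off k i : ℕ) : FG g :=
  ((List.range' i (k - i)).map fun l => ga g (off + l) * gb g (off + l)).prod

/-- `s_0 = X_0⁻¹`, `s_{2i+1} = (a_i X_{i+1})⁻¹`, `s_{2i+2} = X_{i+1}⁻¹ b_i` (handles shifted by `off`) -/
def sc (g off k m : ℕ) : FG g :=
  if m = 0 then (Xw g off k 0)⁻¹
  else if m % 2 = 1 then (ga g (off + m / 2) * Xw g off k (m / 2 + 1))⁻¹
  else (Xw g off k (m / 2))⁻¹ * gb g (off + m / 2 - 1)

/-- the chain of twists `u_0 = τ_{b_0}`, `u_{2i+1} = τ_{b_i} τ_{a_i} τ_{b_i}⁻¹`, `u_{2i} = τ_{ν_{i-1,i}}`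
(`i ≥ 1`), handles shifted by `off` -/
def uu (g off j : ℕ) : MulAut (FG g) :=
  if j = 0 then tauB g off
  else if j % 2 = 1 then tauB g (off + j / 2) * tauA g (off + j / 2) * (tauB g (off + j / 2))⁻¹
  else tauN g (off + j / 2 - 1) (off + j / 2)

/-- `u_j u'_j`, the second factor acting on the handles `k, …, 2k-1` -/
def UU (k j : ℕ) : MulAut (FG (2 * k)) := uu (2 * k) 0 j * uu (2 * k) k j

/-- `TT k d = T_{2k-d}`: `T_{2k} = τ_{ν_{k-1,2k-1}}`, `T_j = (u_j u'_j)⁻¹ T_{j+1} (u_j u'_j)` -/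
def TT (k : ℕ) : ℕ → MulAut (FG (2 * k))
  | 0 => tauN (2 * k) (k - 1) (2 * k - 1)
  | d + 1 => (UU k (2 * k - 1 - d))⁻¹ * TT k d * UU k (2 * k - 1 - d)

/-- the twist `T_j` of the Matsumoto-Cadavid-Korkmaz relation, `0 ≤ j ≤ 2k` -/
def Tj (k j : ℕ) : MulAut (FG (2 * k)) := TT k (2 * k - j)

/-- `x` and `y` satisfy the braid relation -/
def Braid {G : Type*} [Group G] (x y : G) : Prop := x * y * x = y * x * y

theorem uu_mem (g off j : ℕ) : uu g off j ∈ AR g := by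
  unfold uu
  split_ifs
  · exact tauB_R _ _
  · exact (AR g).mul_mem ((AR g).mul_mem (tauB_R _ _) (tauA_R _ _)) ((AR g).inv_mem (tauB_R _ _))
  · exact tauN_R _ _ _

theorem UU_mem (k j : ℕ) : UU k j ∈ AR (2 * k) := (AR _).mul_mem (uu_mem _ _ _) (uu_mem _ _ _)

theorem TT_mem (k d : ℕ) : TT k d ∈ AR (2 * k) := by
  induction d with
  | zero => exact tauN_R _ _ _
  | succ d ih => exact (AR _).mul_mem ((AR _).mul_mem ((AR _).inv_mem (UU_mem _ _)) ih) (UU_mem _ _)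

theorem Tj_mem (k j : ℕ) : Tj k j ∈ AR (2 * k) := TT_mem _ _

/-- the push homomorphism with values in `AR g` -/
def phiAR (g m : ℕ) : FG m →* AR g :=
  mkHom m (fun i => ⟨pushA g m i, pushA_R g m i⟩) (fun i => ⟨pushB g m i, pushB_R g m i⟩)

theorem phiAR_coe (g m : ℕ) (w : FG m) : ((phiAR g m w : AR g) : MulAut (FG g)) = phi g m w := by
  have : (AR g).subtype.comp (phiAR g m) = phi g m := by
    refine fg_hom_ext (fun i hi => ?_) (fun i hi => ?_)
    · simp [phiAR, phi, mkHom_ga _ _ hi]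
    · simp [phiAR, phi, mkHom_gb _ _ hi]
  exact DFunLike.congr_fun this w

/-- pairs (automorphism of `FG g`, the same automorphism on the first `m` handles) generated by the
Lickorish twists on the first `m` handles -/
def Lpair (g m : ℕ) : Subgroup (MulAut (FG g) × MulAut (FG m)) :=
  Subgroup.closure ({p | ∃ i < m, p = (tauA g i, tauA m i)} ∪ {p | ∃ i < m, p = (tauB g i, tauB m i)} ∪
    {p | ∃ i, i + 1 < m ∧ p = (tauM g i (i + 1), tauM m i (i + 1))})

/-- the subgroup of `MulAut (FG g)` generated by the Lickorish twists -/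
def Lam (g : ℕ) : Subgroup (MulAut (FG g)) :=
  Subgroup.closure ({f | ∃ i < g, f = tauA g i} ∪ {f | ∃ i < g, f = tauB g i} ∪
    {f | ∃ i, i + 1 < g ∧ f = tauM g i (i + 1)})

end Pool.Agent.helper35.Hz
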