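import Mathlib
import Pool.Agent.helper35.Hz.Sdefs

/-! # Definitions for the modules E, K, G -/

namespace Pool.Agent.helper35.Hz

/-- the element `F` that moves `μ_{i,j}` to `μ_{i,j+1}` -/
def stepF (g j : ℕ) : MulAut (FG g) :=
  (tauB g (j + 1))⁻¹ * (tauM g j (j + 1))⁻¹ * (tauB g j)⁻¹ * (tauA g j)⁻¹ * tauA g (j + 1) * tauB g (j + 1) *
    tauM g j (j + 1) * tauB g j

/-- the curves (with their twists) in `FG m`, `m = 2k-1` -/
def CT (k m : ℕ) : Set (FG m × MulAut (FG m)) :=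
  {p | ∃ i < m, p = (ga m i, tauA m i)} ∪
  {p | ∃ i, (i = k - 2 ∨ i = k - 1 ∨ i = 2 * k - 2) ∧ p = (gb m i, tauB m i)} ∪
  {p | ∃ i, i + 1 < k ∧ p = (nu m i (k + i), tauN m i (k + i))} ∪
  {p | ∃ i, i + 1 < k ∧ p = (mu m (k - 1) (k + i), tauM m (k - 1) (k + i))} ∪
  {p | ∃ j, j + 1 < m ∧ p = (mu m j (j + 1), tauM m j (j + 1))}

/-- `x_i ↦ b_i` -/
def xin (n m : ℕ) : FreeGroup (Fin n) →* FG m := FreeGroup.lift fun i => gb m i

/-- the twist `e_r = φ(r) τ_b φ(r)⁻¹` where `φ` pushes the handle `m'` -/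
def eT (g m' : ℕ) (r : FG m') : MulAut (FG g) := phi g m' r * tauB g m' * (phi g m' r)⁻¹

/-- the twists added to the base relation -/
def addT (k : ℕ) : Set (MulAut (FG (2 * k))) :=
  {f | ∃ i < 2 * k, f = tauA (2 * k) i} ∪
  {f | ∃ i, (i = k - 2 ∨ i = k - 1 ∨ i = 2 * k - 2 ∨ i = 2 * k - 1) ∧ f = tauB (2 * k) i} ∪
  {f | ∃ i, i + 1 < k ∧ f = tauN (2 * k) i (k + i)} ∪
  {f | ∃ i, i + 1 < k ∧ f = tauM (2 * k) (k - 1) (k + i)} ∪
  {f | ∃ j, j + 1 < 2 * k ∧ f = tauM (2 * k) j (j + 1)}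

end Pool.Agent.helper35.Hz
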