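import Mathlib
import Pool.Agent.helper35.Hz.Sdefs

/-! # Supports of automorphisms; automorphisms with disjoint supports commute -/

namespace Pool.Agent.helper35.Hz

variable {g : ℕ}

/-- the subgroup generated by the handles satisfying `P` -/
def LP (g : ℕ) (P : ℕ → Prop) : Subgroup (FG g) :=
  Subgroup.closure ({x | ∃ l, P l ∧ x = ga g l} ∪ {x | ∃ l, P l ∧ x = gb g l})

theorem ga_LP {P : ℕ → Prop} {l : ℕ} (h : P l) : ga g l ∈ LP g P :=
  Subgroup.subset_closure (Or.inl ⟨l, h, rfl⟩)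

theorem gb_LP {P : ℕ → Prop} {l : ℕ} (h : P l) : gb g l ∈ LP g P :=
  Subgroup.subset_closure (Or.inr ⟨l, h, rfl⟩)

theorem gz_LP {P : ℕ → Prop} {l : ℕ} (h : P l) : gz g l ∈ LP g P :=
  mul_mem (mul_mem (mul_mem (ga_LP h) (gb_LP h)) (inv_mem (ga_LP h))) (inv_mem (gb_LP h))

theorem zr_LP {P : ℕ → Prop} {i j : ℕ} (h : ∀ l, i ≤ l → l < j → P l) : zr g i j ∈ LP g P := by
  unfold zr
  refine Subgroup.list_prod_mem _ fun x hx => ?_
  rw [List.mem_map] at hx
  obtain ⟨l, hl, rfl⟩ := hx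
  rw [List.mem_range'_1] at hl
  exact gz_LP (h l hl.1 (by omega))

theorem nu_LP {P : ℕ → Prop} {i j : ℕ} (hij : i ≤ j) (h : ∀ l, i ≤ l → l ≤ j → P l) : nu g i j ∈ LP g P :=
  mul_mem (mul_mem (mul_mem (mul_mem (inv_mem (gb_LP (h i le_rfl hij)))
    (zr_LP fun l h1 h2 => h l (by omega) (by omega))) (ga_LP (h j hij le_rfl))) (gb_LP (h j hij le_rfl)))
    (inv_mem (ga_LP (h j hij le_rfl)))

theorem mu_LP {P : ℕ → Prop} {i j : ℕ} (hij : i ≤ j) (h : ∀ l, i ≤ l → l ≤ j → P l) : mu g i j ∈ LP g P :=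
  mul_mem (mul_mem (mul_mem (mul_mem (gb_LP (h i le_rfl hij)) (inv_mem (ga_LP (h i le_rfl hij))))
    (inv_mem (gb_LP (h i le_rfl hij)))) (zr_LP fun l h1 h2 => h l (by omega) (by omega)))
    (ga_LP (h j hij le_rfl))

/-- a homomorphism fixing the generators in `P` fixes `LP` -/
theorem LP_fix {P : ℕ → Prop} {f : FG g →* FG g} (ha : ∀ l, P l → f (ga g l) = ga g l)
    (hb : ∀ l, P l → f (gb g l) = gb g l) {x : FG g} (hx : x ∈ LP g P) : f x = x := by
  have : LP g P ≤ f.eqLocus (MonoidHom.id _) := by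
    rw [LP, Subgroup.closure_le]
    rintro x (⟨l, h, rfl⟩ | ⟨l, h, rfl⟩)
    · exact ha l h
    · exact hb l h
  exact this hx

/-- automorphisms supported on the handles satisfying `P` -/
def Supp (g : ℕ) (P : ℕ → Prop) : Subgroup (MulAut (FG g)) where
  carrier := {T | (∀ l, ¬ P l → T (ga g l) = ga g l ∧ T (gb g l) = gb g l) ∧
    (∀ x, x ∈ LP g P → T x ∈ LP g P) ∧ (∀ x, x ∈ LP g P → T⁻¹ x ∈ LP g P)}
  mul_mem' := by
    rintro S T ⟨h1, h2, h3⟩ ⟨k1, k2, k3⟩
    refine ⟨fun l hl => ?_, fun x hx => ?_, fun x hx => ?_⟩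
    · rw [MulAut.mul_apply, MulAut.mul_apply, (k1 l hl).1, (k1 l hl).2]
      exact h1 l hl
    · rw [MulAut.mul_apply]; exact h2 _ (k2 _ hx)
    · rw [mul_inv_rev, MulAut.mul_apply]; exact k3 _ (h3 _ hx)
  one_mem' := ⟨fun l _ => ⟨rfl, rfl⟩, fun x hx => hx, fun x hx => by simpa using hx⟩
  inv_mem' := by
    rintro T ⟨h1, h2, h3⟩
    refine ⟨fun l hl => ⟨?_, ?_⟩, h3, fun x hx => by simpa using h2 x hx⟩
    · have := congrArg (fun y => T⁻¹ y) (h1 l hl).1
      simpa using this.symm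
    · have := congrArg (fun y => T⁻¹ y) (h1 l hl).2
      simpa using this.symm

theorem Supp.comm {P P' : ℕ → Prop} (hd : ∀ l, ¬ (P l ∧ P' l)) {S T : MulAut (FG g)}
    (hS : S ∈ Supp g P) (hT : T ∈ Supp g P') : Commute S T := by
  have key : ∀ l, S (T (ga g l)) = T (S (ga g l)) ∧ S (T (gb g l)) = T (S (gb g l)) := by
    intro l
    by_cases h : P l
    · have h' : ¬ P' l := fun h' => hd l ⟨h, h'⟩
      rw [(hT.1 l h').1, (hT.1 l h').2]
      have fixT : ∀ x, x ∈ LP g P → T x = x := fun x hx =>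
        LP_fix (f := (T : FG g →* FG g)) (fun m hm => (hT.1 m (fun h2 => hd m ⟨hm, h2⟩)).1)
          (fun m hm => (hT.1 m (fun h2 => hd m ⟨hm, h2⟩)).2) hx
      exact ⟨(fixT _ (hS.2.1 _ (ga_LP h))).symm, (fixT _ (hS.2.1 _ (gb_LP h))).symm⟩
    · rw [(hS.1 l h).1, (hS.1 l h).2]
      by_cases h' : P' l
      · have fixS : ∀ x, x ∈ LP g P' → S x = x := fun x hx =>
          LP_fix (f := (S : FG g →* FG g)) (fun m hm => (hS.1 m (fun h2 => hd m ⟨h2, hm⟩)).1)
            (fun m hm => (hS.1 m (fun h2 => hd m ⟨h2, hm⟩)).2) hx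
        exact ⟨fixS _ (hT.2.1 _ (ga_LP h')), fixS _ (hT.2.1 _ (gb_LP h'))⟩
      · rw [(hT.1 l h').1, (hT.1 l h').2, (hS.1 l h).1, (hS.1 l h).2]
        exact ⟨rfl, rfl⟩
  change S * T = T * S
  refine fg_aut_ext (fun i _ => ?_) (fun i _ => ?_)
  · exact (key i).1
  · exact (key i).2

theorem tw_Supp {P : ℕ → Prop} {c : FG g} {α β : ℕ → Bool → Bool} {h1 h2} (hc : c ∈ LP g P)
    (hα : ∀ l s, ¬ P l → α l s = false) (hβ : ∀ l s, ¬ P l → β l s = false) :
    tw c α β h1 h2 ∈ Supp g P := by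
  refine ⟨fun l hl => ?_, ?_, ?_⟩
  · by_cases hg : l < g
    · rw [tw_ga hg, tw_gb hg]
      simp [hα l _ hl, hβ l _ hl]
    · simp [ga_of_ge hg, gb_of_ge hg]
  · intro x hx
    have : LP g P ≤ (LP g P).comap (tw c α β h1 h2 : FG g →* FG g) := by
      rw [LP, Subgroup.closure_le]
      rintro x (⟨l, h, rfl⟩ | ⟨l, h, rfl⟩)
      · by_cases hg : l < g
        · change tw c α β h1 h2 (ga g l) ∈ LP g P
          rw [tw_ga hg]
          refine mul_mem (mul_mem ?_ (ga_LP h)) ?_
          · split_ifs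
            exacts [hc, one_mem _]
          · split_ifs
            exacts [inv_mem hc, one_mem _]
        · change tw c α β h1 h2 (ga g l) ∈ LP g P
          rw [ga_of_ge hg, map_one]; exact one_mem _
      · by_cases hg : l < g
        · change tw c α β h1 h2 (gb g l) ∈ LP g P
          rw [tw_gb hg]
          refine mul_mem (mul_mem ?_ (gb_LP h)) ?_
          · split_ifs
            exacts [hc, one_mem _]
          · split_ifs
            exacts [inv_mem hc, one_mem _]
        · change tw c α β h1 h2 (gb g l) ∈ LP g P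
          rw [gb_of_ge hg, map_one]; exact one_mem _
    exact this hx
  · intro x hx
    have : LP g P ≤ (LP g P).comap (((tw c α β h1 h2)⁻¹ : MulAut (FG g)) : FG g →* FG g) := by
      rw [LP, Subgroup.closure_le]
      rintro x (⟨l, h, rfl⟩ | ⟨l, h, rfl⟩)
      · by_cases hg : l < g
        · change (tw c α β h1 h2)⁻¹ (ga g l) ∈ LP g P
          rw [tw_inv_ga hg]
          refine mul_mem (mul_mem ?_ (ga_LP h)) ?_
          · split_ifs
            exacts [inv_mem hc, one_mem _]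
          · split_ifs
            exacts [hc, one_mem _]
        · change (tw c α β h1 h2)⁻¹ (ga g l) ∈ LP g P
          rw [ga_of_ge hg, map_one]; exact one_mem _
      · by_cases hg : l < g
        · change (tw c α β h1 h2)⁻¹ (gb g l) ∈ LP g P
          rw [tw_inv_gb hg]
          refine mul_mem (mul_mem ?_ (gb_LP h)) ?_
          · split_ifs
            exacts [inv_mem hc, one_mem _]
          · split_ifs
            exacts [hc, one_mem _]
        · change (tw c α β h1 h2)⁻¹ (gb g l) ∈ LP g P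
          rw [gb_of_ge hg, map_one]; exact one_mem _
    exact this hx

theorem tauA_Supp {P : ℕ → Prop} {i : ℕ} (h : P i) : tauA g i ∈ Supp g P :=
  tw_Supp (ga_LP h) (fun _ _ _ => rfl) (fun l s hl => by
    simp only [bA, decide_eq_false_iff_not]; rintro ⟨rfl, _⟩; exact hl h)

theorem tauB_Supp {P : ℕ → Prop} {i : ℕ} (h : P i) : tauB g i ∈ Supp g P :=
  tw_Supp (inv_mem (gb_LP h)) (fun _ _ _ => rfl) (fun l s hl => by
    simp only [bB, decide_eq_false_iff_not]; rintro ⟨rfl, _⟩; exact hl h)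

theorem tauM_Supp {P : ℕ → Prop} {i j : ℕ} (h : ∀ l, i ≤ l → l ≤ j → P l) : tauM g i j ∈ Supp g P := by
  unfold tauM
  split_ifs with hij
  · refine tw_Supp (mu_LP hij.1.le h) (fun l s hl => ?_) (fun l s hl => ?_)
    · simp only [αM, decide_eq_false_iff_not]
      intro hh
      exact hl (h l (by omega) (by omega))
    · simp only [βM, decide_eq_false_iff_not]
      intro hh
      exact hl (h l (by omega) (by omega))
  · exact one_mem _

theorem tauN_Supp {P : ℕ → Prop} {i j : ℕ} (h : ∀ l, i ≤ l → l ≤ j → P l) : tauN g i j ∈ Supp g P := by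
  unfold tauN
  split_ifs with hij
  · refine tw_Supp (nu_LP hij.1.le h) (fun l s hl => ?_) (fun l s hl => ?_)
    · simp only [αN, decide_eq_false_iff_not]
      intro hh
      exact hl (h l (by omega) (by omega))
    · simp only [βN, decide_eq_false_iff_not]
      intro hh
      exact hl (h l (by omega) (by omega))
  · exact one_mem _

theorem uu_Supp {P : ℕ → Prop} {off k j : ℕ} (h : ∀ l, off ≤ l → l < off + k → P l) (hj : j < 2 * k) :
    uu g off j ∈ Supp g P := by
  unfold uu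
  split_ifs with c1 c2
  · exact tauB_Supp (h _ le_rfl (by omega))
  · exact mul_mem (mul_mem (tauB_Supp (h _ (by omega) (by omega))) (tauA_Supp (h _ (by omega) (by omega))))
      (inv_mem (tauB_Supp (h _ (by omega) (by omega))))
  · exact tauN_Supp fun l h1 h2 => h l (by omega) (by omega)

theorem uu_comm_uu {k j j' : ℕ} (hj : j < 2 * k) (hj' : j' < 2 * k) :
    Commute (uu (2 * k) 0 j) (uu (2 * k) k j') :=
  Supp.comm (P := fun l => l < k) (P' := fun l => k ≤ l) (fun l h => by omega)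
    (uu_Supp (k := k) (fun l _ h2 => by omega) hj) (uu_Supp (k := k) (fun l h1 _ => h1) hj')

end Pool.Agent.helper35.Hz
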