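import Pool.Agent.helper35.Hz.Kdefs
import Pool.Agent.helper78.Hz.MckRel
import Pool.Agent.helper45.Hz.S
import Pool.Agent.helper18.Hz.Braid
import Pool.Agent.helper5.Hz.B3b
import Pool.Agent.helper11.Hz.K4
import Pool.Agent.helper18.Hz.TjBraid
import Pool.Agent.helper18.Hz.ModE

/-! # The modules used in the assembly, collected -/

namespace Pool.Agent.helper35.Hz

theorem mck_relation (k : ℕ) (hk : 1 ≤ k) :
    (((List.range (2 * k + 1)).map fun j => toOut (2 * k) ⟨Tj k j, Tj_mem k j⟩).prod *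
      toOut (2 * k) ⟨delta (2 * k) k, delta_R (2 * k) k⟩) ^ 2 = 1 :=
  Pool.Agent.helper78.Hz.mck_relation k hk

theorem braid_M_N1 {g l i j : ℕ} (h1 : l < i) (h : i < j) (hj : j < g) :
    Braid (tauM g l i) (tauN g i j) :=
  Pool.Agent.helper18.Hz.braid_M_N1 h1 h hj
theorem braid_M_N2 {g i l j : ℕ} (h1 : i < l) (h : l < j) (hj : j < g) :
    Braid (tauM g l j) (tauN g i j) :=
  Pool.Agent.helper18.Hz.braid_M_N2 h1 h hj

theorem Tj_braid {k i : ℕ} (hi : i < k) :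
    Braid (Tj k (2 * i + 2)) (tauA (2 * k) i) ∧ Braid (Tj k (2 * i + 2)) (tauA (2 * k) (k + i)) :=
  Pool.Agent.helper18.Hz.Tj_braid hi

theorem tauM_pair {g m i j : ℕ} (h : i < j) (hj : j < m) (hm : m ≤ g) :
    (tauM g i j, tauM m i j) ∈ Lpair g m :=
  Pool.Agent.helper18.Hz.tauM_pair h hj hm

theorem tauN_pair {g m i j : ℕ} (h : i < j) (hj : j < m) (hm : m ≤ g) :
    (tauN g i j, tauN m i j) ∈ Lpair g m :=
  Pool.Agent.helper18.Hz.tauN_pair h hj hm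

theorem tauM_Lam {g i j : ℕ} (h : i < j) (hj : j < g) : tauM g i j ∈ Lam g :=
  Pool.Agent.helper18.Hz.tauM_Lam h hj

theorem tauN_Lam {g i j : ℕ} (h : i < j) (hj : j < g) : tauN g i j ∈ Lam g :=
  Pool.Agent.helper18.Hz.tauN_Lam h hj

theorem delta_Lam {g k : ℕ} (hk : 1 ≤ k) (h : k ≤ g) : delta g k ∈ Lam g :=
  Pool.Agent.helper18.Hz.delta_Lam hk h

theorem comm_phi_A {g m : ℕ} (hm : m < g) (w : FG m) : Commute (phi g m w) (tauA g m) :=
  Pool.Agent.helper5.Hz.comm_phi_A hm w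

theorem phi_init {g m : ℕ} (hm : m + 1 < g) :
    phi g (m + 1) (gb (m + 1) m * ga (m + 1) m * (gb (m + 1) m)⁻¹) =
      (tauA g m)⁻¹ * tauM g m (m + 1) :=
  Pool.Agent.helper5.Hz.phi_init hm

theorem phi_F {g m j : ℕ} (hj : j < m) (hm : m < g) :
    (phi g m (ga m j) * tauB g m * phi g m (gb m j)) * tauB g m *
      (phi g m (ga m j) * tauB g m * phi g m (gb m j))⁻¹ = tauB g j :=
  Pool.Agent.helper5.Hz.phi_F hj hm

theorem Lpair_equiv {g m : ℕ} (hm : m < g) {p : MulAut (FG g) × MulAut (FG m)} (hp : p ∈ Lpair g m) (w : FG m) :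
    ∃ e : ℤ, p.1 * phi g m w * p.1⁻¹ = phi g m (p.2 w) * (tauA g m) ^ e :=
  Pool.Agent.helper5.Hz.Lpair_equiv hm hp w

theorem phi_pair {g m m' : ℕ} (h : m' < m) (hm : m ≤ g) (w : FG m') :
    (phi g m' w, phi m m' w) ∈ Lpair g m :=
  Pool.Agent.helper5.Hz.phi_pair h hm w

theorem phi_Lam {g m : ℕ} (hm : m < g) (w : FG m) : phi g m w ∈ Lam g :=
  Pool.Agent.helper5.Hz.phi_Lam hm w

theorem K_full {k m : ℕ} (hk : 2 ≤ k) (hm : m = 2 * k - 1) (K : Subgroup (FG m))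
    (hK : ∀ p ∈ CT k m, ∀ x, p.2 x ∈ K ↔ x ∈ K)
    (hbase : gb m (2 * k - 2) * ga m (2 * k - 2) * (gb m (2 * k - 2))⁻¹ ∈ K)
    (X : Set (FreeGroup (Fin (k - 2))))
    (hX : ∀ r ∈ X, ∀ x, eT m (2 * k - 2) (xin (k - 2) (2 * k - 2) r) x ∈ K ↔ x ∈ K)
    (hn : Subgroup.normalClosure X = ⊤) : K = ⊤ :=
  Pool.Agent.helper11.Hz.K_full hk hm K hK hbase X hX hn

end Pool.Agent.helper35.Hz
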