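import Mathlib
import Pool.Agent.helper35.Hz.Supp

/-! # The involution exchanging the two halves of the surface of genus `2k` -/

namespace Pool.Agent.helper35.Hz

set_option linter.unusedSimpArgs false

/-! ### the involution exchanging the two halves -/

/-- exchange of the handles `l` and `l + k` -/
def sw (k l : ℕ) : ℕ := if l < k then l + k else l - k

def theta (k : ℕ) : FG (2 * k) →* FG (2 * k) :=
  mkHom (2 * k) (fun l => ga (2 * k) (sw k l)) (fun l => gb (2 * k) (sw k l))

theorem sw_lt {k l : ℕ} (h : l < 2 * k) : sw k l < 2 * k := by unfold sw; split_ifs <;> omega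
theorem sw_sw {k l : ℕ} (h : l < 2 * k) : sw k (sw k l) = l := by unfold sw; split_ifs <;> omega

theorem theta_ga {k l : ℕ} (h : l < 2 * k) : theta k (ga (2 * k) l) = ga (2 * k) (sw k l) := mkHom_ga _ _ h
theorem theta_gb {k l : ℕ} (h : l < 2 * k) : theta k (gb (2 * k) l) = gb (2 * k) (sw k l) := mkHom_gb _ _ h

theorem theta_gz {k l : ℕ} (h : l < 2 * k) : theta k (gz (2 * k) l) = gz (2 * k) (sw k l) := by
  simp [gz, theta_ga h, theta_gb h]

theorem theta_theta {k : ℕ} (x : FG (2 * k)) : theta k (theta k x) = x := by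
  have : (theta k).comp (theta k) = MonoidHom.id _ := by
    refine fg_hom_ext (fun i hi => ?_) (fun i hi => ?_)
    · simp [theta_ga hi, theta_ga (sw_lt hi), sw_sw hi]
    · simp [theta_gb hi, theta_gb (sw_lt hi), sw_sw hi]
  exact DFunLike.congr_fun this x

theorem theta_zr {k i j : ℕ} (h : i ≤ j) (hj : j ≤ k) :
    theta k (zr (2 * k) i j) = zr (2 * k) (k + i) (k + j) := by
  induction j, h using Nat.le_induction with
  | base => simp [zr_self]
  | succ j h ih =>
    rw [zr_succ _ h, map_mul, ih (by omega), theta_gz (by omega),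
      show k + (j + 1) = (k + j) + 1 by ring, zr_succ _ (by omega)]
    congr 2
    unfold sw; rw [if_pos (by omega)]; omega

theorem theta_zr' {k i j : ℕ} (h : i ≤ j) (hj : j ≤ k) :
    theta k (zr (2 * k) (k + i) (k + j)) = zr (2 * k) i j := by
  rw [← theta_zr h hj, theta_theta]

/-! ### `theta` conjugates `uu 0 j` to `uu k j` -/

theorem theta_tauA {k i : ℕ} (hi : i < k) (x : FG (2 * k)) :
    theta k (tauA (2 * k) i x) = tauA (2 * k) (k + i) (theta k x) := by
  have e : (theta k).comp (tauA (2 * k) i : FG (2 * k) →* FG (2 * k)) =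
      (tauA (2 * k) (k + i) : FG (2 * k) →* FG (2 * k)).comp (theta k) := by
    refine fg_hom_ext (fun l hl => ?_) (fun l hl => ?_)
    · simp only [MonoidHom.comp_apply, MonoidHom.coe_coe, tauA, tw_ga hl, theta_ga hl, tw_ga (sw_lt hl),
        map_mul, bA]
      simp [theta_ga hl]
    · simp only [MonoidHom.comp_apply, MonoidHom.coe_coe, tauA, tw_gb hl, theta_gb hl, tw_gb (sw_lt hl),
        map_mul, bA]
      have hs : sw k i = k + i := by unfold sw; rw [if_pos hi]; omega
      have : (sw k l = k + i) ↔ l = i := by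
        unfold sw; split_ifs <;> omega
      by_cases c : l = i
      · subst c; simp [theta_ga hl, theta_gb hl, hs]
      · simp [theta_gb hl, c, this]
  exact DFunLike.congr_fun e x

theorem theta_tauB {k i : ℕ} (hi : i < k) (x : FG (2 * k)) :
    theta k (tauB (2 * k) i x) = tauB (2 * k) (k + i) (theta k x) := by
  have e : (theta k).comp (tauB (2 * k) i : FG (2 * k) →* FG (2 * k)) =
      (tauB (2 * k) (k + i) : FG (2 * k) →* FG (2 * k)).comp (theta k) := by
    refine fg_hom_ext (fun l hl => ?_) (fun l hl => ?_)
    · simp only [MonoidHom.comp_apply, MonoidHom.coe_coe, tauB, tw_ga hl, theta_ga hl, tw_ga (sw_lt hl),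
        map_mul, bB]
      have hs : sw k i = k + i := by unfold sw; rw [if_pos hi]; omega
      have : (sw k l = k + i) ↔ l = i := by
        unfold sw; split_ifs <;> omega
      by_cases c : l = i
      · subst c; simp [theta_ga hl, theta_gb hl, hs]
      · simp [theta_ga hl, c, this]
    · simp only [MonoidHom.comp_apply, MonoidHom.coe_coe, tauB, tw_gb hl, theta_gb hl, tw_gb (sw_lt hl),
        map_mul, bB]
      simp [theta_gb hl]
  exact DFunLike.congr_fun e x

theorem theta_nu {k i j : ℕ} (h : i < j) (hj : j < k) :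
    theta k (nu (2 * k) i j) = nu (2 * k) (k + i) (k + j) := by
  have h1 : sw k i = k + i := by unfold sw; rw [if_pos (by omega)]; omega
  have h2 : sw k j = k + j := by unfold sw; rw [if_pos (by omega)]; omega
  simp [nu, theta_ga (show j < 2 * k by omega), theta_gb (show j < 2 * k by omega),
    theta_gb (show i < 2 * k by omega), theta_zr (show i + 1 ≤ j by omega) hj.le, h1, h2, ← add_assoc]

theorem theta_tauN {k i j : ℕ} (h : i < j) (hj : j < k) (x : FG (2 * k)) :
    theta k (tauN (2 * k) i j x) = tauN (2 * k) (k + i) (k + j) (theta k x) := by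
  have e : (theta k).comp (tauN (2 * k) i j : FG (2 * k) →* FG (2 * k)) =
      (tauN (2 * k) (k + i) (k + j) : FG (2 * k) →* FG (2 * k)).comp (theta k) := by
    have hα : ∀ l, l < 2 * k → ∀ s, αN (k + i) (k + j) (sw k l) s = αN i j l s := by
      intro l hl s
      unfold αN sw
      rw [decide_eq_decide]
      cases s <;> split_ifs <;> simp <;> omega
    have hβ : ∀ l, l < 2 * k → ∀ s, βN (k + i) (k + j) (sw k l) s = βN i j l s := by
      intro l hl s
      unfold βN sw
      rw [decide_eq_decide]
      split_ifs <;> omega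
    refine fg_hom_ext (fun l hl => ?_) (fun l hl => ?_)
    · simp only [MonoidHom.comp_apply, MonoidHom.coe_coe, tauN, dif_pos (show i < j ∧ j < 2 * k by omega),
        dif_pos (show k + i < k + j ∧ k + j < 2 * k by omega), tw_ga hl, theta_ga hl, tw_ga (sw_lt hl),
        map_mul, hα l hl, hβ l hl, apply_ite (theta k), map_inv, theta_nu h hj, map_one]
    · simp only [MonoidHom.comp_apply, MonoidHom.coe_coe, tauN, dif_pos (show i < j ∧ j < 2 * k by omega),
        dif_pos (show k + i < k + j ∧ k + j < 2 * k by omega), tw_gb hl, theta_gb hl, tw_gb (sw_lt hl),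
        map_mul, hα l hl, hβ l hl, apply_ite (theta k), map_inv, theta_nu h hj, map_one]
  exact DFunLike.congr_fun e x

theorem theta_uu {k j : ℕ} (hj : j < 2 * k) (x : FG (2 * k)) :
    theta k (uu (2 * k) 0 j x) = uu (2 * k) k j (theta k x) := by
  unfold uu
  split_ifs with c1 c2
  · exact theta_tauB (by omega) x
  · have h : j / 2 < k := by omega
    simp only [MulAut.mul_apply, zero_add]
    rw [theta_tauB h, theta_tauA h]
    congr 2
    -- inverse
    have := theta_tauB h ((tauB (2 * k) (j / 2))⁻¹ x)
    rw [MulAut.apply_inv_self] at this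
    rw [this, MulAut.inv_apply_self]
  · have h : j / 2 - 1 < j / 2 := by omega
    have := theta_tauN h (show j / 2 < k by omega) x
    simp only [zero_add]
    rw [this, show k + (j / 2 - 1) = k + j / 2 - 1 by omega]

end Pool.Agent.helper35.Hz
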