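import Mathlib
import Pool.Agent.helper35.Hz.Collect
import Pool.Agent.helper35.Hz.Theta

/-! # Module G, lower bound: homomorphisms preserved by the twists -/

namespace Pool.Agent.helper35.Hz

theorem fg_top {g : ℕ} {K : Subgroup (FG g)} (ha : ∀ i < g, ga g i ∈ K) (hb : ∀ i < g, gb g i ∈ K) :
    K = ⊤ := by
  rw [eq_top_iff]
  intro x _
  induction x using FreeGroup.induction_on with
  | C1 => exact K.one_mem
  | of x =>
    obtain ⟨⟨i, hi⟩, s⟩ := x
    cases s
    · have := hb i hi; rwa [gb_of_lt hi] at this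
    · have := ha i hi; rwa [ga_of_lt hi] at this
  | inv_of x h => exact K.inv_mem (h (Subgroup.mem_top _))
  | mul x y h1 h2 => exact K.mul_mem (h1 (Subgroup.mem_top _)) (h2 (Subgroup.mem_top _))

section stab
variable {g : ℕ} {Q : Type*} [Group Q] (χ : FG g →* Q)

/-- automorphisms that preserve `χ` -/
def stab0 : Subgroup (MulAut (FG g)) where
  carrier := {T | ∀ x, χ (T x) = χ x}
  mul_mem' := by
    intro S T h1 h2 x
    rw [MulAut.mul_apply, h1, h2]
  one_mem' := fun x => rfl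
  inv_mem' := by
    intro T h x
    have := h (T⁻¹ x)
    rw [MulAut.apply_inv_self] at this
    exact this.symm

theorem mem_stab0 {T : MulAut (FG g)} : T ∈ stab0 χ ↔ ∀ x, χ (T x) = χ x := Iff.rfl

theorem mem_stab0_of_gen {T : MulAut (FG g)} (ha : ∀ i < g, χ (T (ga g i)) = χ (ga g i))
    (hb : ∀ i < g, χ (T (gb g i)) = χ (gb g i)) : T ∈ stab0 χ := by
  have : χ.comp (T : FG g →* FG g) = χ := fg_hom_ext (by simpa using ha) (by simpa using hb)
  intro x
  exact DFunLike.congr_fun this x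

theorem tw_mem_stab0 {c : FG g} {α β : ℕ → Bool → Bool} {h1 h2} (hc : χ c = 1) :
    tw c α β h1 h2 ∈ stab0 χ := by
  refine mem_stab0_of_gen χ (fun i hi => ?_) (fun i hi => ?_)
  · rw [tw_ga hi, map_mul, map_mul, apply_ite χ, apply_ite χ, map_inv, hc, map_one, inv_one]
    simp
  · rw [tw_gb hi, map_mul, map_mul, apply_ite χ, apply_ite χ, map_inv, hc, map_one, inv_one]
    simp

theorem tauA_stab0 {i : ℕ} (h : χ (ga g i) = 1) : tauA g i ∈ stab0 χ := tw_mem_stab0 χ h

theorem tauB_stab0 {i : ℕ} (h : χ (gb g i) = 1) : tauB g i ∈ stab0 χ :=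
  tw_mem_stab0 χ (by rw [map_inv, h, inv_one])

theorem tauM_stab0 {i j : ℕ} (h : χ (mu g i j) = 1) : tauM g i j ∈ stab0 χ := by
  unfold tauM
  split_ifs
  · exact tw_mem_stab0 χ h
  · exact one_mem _

theorem tauN_stab0 {i j : ℕ} (h : χ (nu g i j) = 1) : tauN g i j ∈ stab0 χ := by
  unfold tauN
  split_ifs
  · exact tw_mem_stab0 χ h
  · exact one_mem _

theorem delta_stab0 {j : ℕ} (h : χ (zr g 0 j) = 1) : delta g j ∈ stab0 χ := by
  unfold delta
  split_ifs
  · exact tw_mem_stab0 χ h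
  · exact one_mem _

theorem map_zr_one {i j : ℕ} (h : ∀ l, i ≤ l → l < j → χ (gz g l) = 1) : χ (zr g i j) = 1 := by
  unfold zr
  rw [map_list_prod, List.map_map]
  refine List.prod_eq_one fun x hx => ?_
  rw [List.mem_map] at hx
  obtain ⟨l, hl, rfl⟩ := hx
  rw [List.mem_range'_1] at hl
  exact h l hl.1 (by omega)

theorem map_gz_one {l : ℕ} (h : χ (ga g l) = 1) : χ (gz g l) = 1 := by
  simp [gz, h]

end stab

/-! ### the family `chi q` -/

/-- kills all `a_l`, maps `b_l` to `β l`, except `b_h`, which goes to `β h * q` -/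
def chiq {Q : Type*} [Group Q] (g h : ℕ) (β : ℕ → Q) (q : Q) : FG g →* Q :=
  mkHom g (fun _ => 1) (fun l => if l = h then β h * q else β l)

theorem chiq_phi {Q : Type*} [Group Q] {g h : ℕ} (hh : h < g) (β : ℕ → Q) (w : FG h) :
    ∀ q x, chiq g h β q (phi g h w x) = chiq g h β (q * mkHom h (fun _ => 1) β w) x := by
  let P : Subgroup (FG h) :=
    { carrier := {w | ∀ q x, chiq g h β q (phi g h w x) = chiq g h β (q * mkHom h (fun _ => 1) β w) x}
      mul_mem' := by
        intro w w' h1 h2 q x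
        rw [map_mul, MulAut.mul_apply, h1, h2, map_mul, mul_assoc]
      one_mem' := by
        intro q x
        simp
      inv_mem' := by
        intro w h1 q x
        have := h1 (q * (mkHom h (fun _ => 1) β w)⁻¹) ((phi g h w)⁻¹ x)
        rw [MulAut.apply_inv_self, inv_mul_cancel_right] at this
        rw [map_inv, map_inv, this] }
  have hP : P = ⊤ := by
    refine fg_top (fun i hi => ?_) (fun i hi => ?_)
    · intro q x
      have e : (chiq g h β q).comp (phi g h (ga h i) : FG g →* FG g) =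
          chiq g h β (q * mkHom h (fun _ => 1) β (ga h i)) := by
        have hphi : phi g h (ga h i) = pushA g h i := mkHom_ga _ _ hi
        have hg : i < g := by omega
        have e1 : i ≠ h := by omega
        refine fg_hom_ext (fun l hl => ?_) (fun l hl => ?_)
        · rw [MonoidHom.comp_apply, hphi]
          change chiq g h β q (pushA g h i (ga g l)) = _
          rw [pushA_ga ⟨hi, hh⟩ hl, pAA]
          split_ifs <;> simp [chiq, mkHom_ga _ _ hl, mkHom_ga _ _ hh, mkHom_ga _ _ hg]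
        · rw [MonoidHom.comp_apply, hphi]
          change chiq g h β q (pushA g h i (gb g l)) = _
          rw [pushA_gb ⟨hi, hh⟩ hl, pAB]
          split_ifs with c1 c2 c3
          · subst c1
            simp [chiq, mkHom_ga _ _ hi, mkHom_gb _ _ hl, mkHom_ga _ _ hh, mkHom_ga _ _ hg]
          · simp [chiq, mkHom_ga _ _ hi, mkHom_gb _ _ hl, mkHom_ga _ _ hh, mkHom_ga _ _ hg]
          · subst c3
            simp [chiq, mkHom_ga _ _ hi, mkHom_gb _ _ hl, mkHom_ga _ _ hh, mkHom_ga _ _ hg]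
          · simp [chiq, mkHom_ga _ _ hi, mkHom_gb _ _ hl]
      exact DFunLike.congr_fun e x
    · intro q x
      have e : (chiq g h β q).comp (phi g h (gb h i) : FG g →* FG g) =
          chiq g h β (q * mkHom h (fun _ => 1) β (gb h i)) := by
        have hphi : phi g h (gb h i) = pushB g h i := mkHom_gb _ _ hi
        have hg : i < g := by omega
        have e1 : i ≠ h := by omega
        refine fg_hom_ext (fun l hl => ?_) (fun l hl => ?_)
        · rw [MonoidHom.comp_apply, hphi]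
          change chiq g h β q (pushB g h i (ga g l)) = _
          rw [pushB_ga ⟨hi, hh⟩ hl, pBA]
          split_ifs <;> simp [chiq, mkHom_ga _ _ hl, mkHom_ga _ _ hh, mkHom_ga _ _ hg, mkHom_gb _ _ hg, e1]
        · rw [MonoidHom.comp_apply, hphi]
          change chiq g h β q (pushB g h i (gb g l)) = _
          rw [pushB_gb ⟨hi, hh⟩ hl, pBB]
          split_ifs with c1 c2 c3
          · subst c1
            simp [chiq, mkHom_gb _ _ hl, mkHom_ga _ _ hh, e1]
          · simp [chiq, mkHom_gb _ _ hl, mkHom_ga _ _ hh, mkHom_gb _ _ hg, e1, c2.2.ne]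
          · subst c3
            simp [chiq, mkHom_gb _ _ hi, mkHom_gb _ _ hl, mkHom_ga _ _ hh, mkHom_gb _ _ hg, e1, mul_assoc]
          · simp [chiq, mkHom_gb _ _ hl, c3]
      exact DFunLike.congr_fun e x
  intro q x
  have : w ∈ P := by rw [hP]; exact Subgroup.mem_top _
  exact this q x

/-- `ψ` factors through the quotient in which the two halves are identified and `q = 1` -/
structure IsW {Q : Type*} [Group Q] (k : ℕ) (ψ : FG (2 * k) →* Q) : Prop where
  inv : ∀ x, ψ (theta k x) = ψ x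
  q : ψ (zr (2 * k) 0 k) = 1

theorem IsW.q' {Q : Type*} [Group Q] {k : ℕ} {ψ : FG (2 * k) →* Q} (h : IsW k ψ) :
    ψ (zr (2 * k) k (2 * k)) = 1 := by
  have := theta_zr (k := k) (i := 0) (j := k) (Nat.zero_le _) le_rfl
  rw [Nat.add_zero, show k + k = 2 * k by ring] at this
  rw [← this, h.inv, h.q]

theorem IsW.nu_one {Q : Type*} [Group Q] {k : ℕ} (hk : 1 ≤ k) {ψ : FG (2 * k) →* Q} (h : IsW k ψ) :
    ψ (nu (2 * k) (k - 1) (2 * k - 1)) = 1 := by
  have e1 : zr (2 * k) k (2 * k) = zr (2 * k) k (2 * k - 1) * gz (2 * k) (2 * k - 1) := by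
    have := zr_succ (2 * k) (i := k) (j := 2 * k - 1) (by omega)
    rwa [show 2 * k - 1 + 1 = 2 * k by omega] at this
  have e2 : nu (2 * k) (k - 1) (2 * k - 1) =
      (gb (2 * k) (k - 1))⁻¹ * zr (2 * k) k (2 * k) * gb (2 * k) (2 * k - 1) := by
    rw [e1, nu, show k - 1 + 1 = k by omega]
    simp [gz, mul_assoc]
  have e3 : ψ (gb (2 * k) (2 * k - 1)) = ψ (gb (2 * k) (k - 1)) := by
    rw [← h.inv (gb (2 * k) (k - 1)), theta_gb (by omega)]
    congr 2
    unfold sw; rw [if_pos (by omega)]; omega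
  rw [e2, map_mul, map_mul, h.q', e3, map_inv]
  group


theorem theta_uu' {k j : ℕ} (hj : j < 2 * k) (x : FG (2 * k)) :
    theta k (uu (2 * k) k j x) = uu (2 * k) 0 j (theta k x) := by
  have := theta_uu hj (theta k x)
  rw [theta_theta] at this
  rw [← this, theta_theta]

theorem theta_UU {k j : ℕ} (hj : j < 2 * k) (x : FG (2 * k)) :
    theta k (UU k j x) = UU k j (theta k x) := by
  unfold UU
  rw [MulAut.mul_apply, theta_uu hj, theta_uu' hj, ← MulAut.mul_apply, ← (uu_comm_uu hj hj).eq,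
    MulAut.mul_apply]

theorem theta_UU_inv {k j : ℕ} (hj : j < 2 * k) (x : FG (2 * k)) :
    theta k ((UU k j)⁻¹ x) = (UU k j)⁻¹ (theta k x) := by
  have := theta_UU hj ((UU k j)⁻¹ x)
  rw [MulAut.apply_inv_self] at this
  rw [this, MulAut.inv_apply_self]

/-- an automorphism supported on the handles `< k` that fixes `R` fixes `zr 0 k` -/
theorem zr_fix_of_supp {g k : ℕ} (hk : k ≤ g) {T : MulAut (FG g)} (hT : T ∈ Supp g fun l => l < k)
    (hR : T (R g) = R g) : T (zr g 0 k) = zr g 0 k := by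
  have h1 : T (zr g k g) = zr g k g := by
    have := hom_zr_fix (f := (T : FG g →* FG g)) (i := k) (j := g) (fun l h1 h2 => by
      have := hT.1 l (by omega)
      exact gz_fix this.1 this.2)
    exact this
  have h2 : R g = zr g 0 k * zr g k g := zr_split g (Nat.zero_le k) hk
  rw [h2, map_mul, h1] at hR
  exact mul_right_cancel hR

theorem UU_q {k j : ℕ} (hj : j < 2 * k) : UU k j (zr (2 * k) 0 k) = zr (2 * k) 0 k := by
  unfold UU
  rw [MulAut.mul_apply]
  have h1 : uu (2 * k) k j (zr (2 * k) 0 k) = zr (2 * k) 0 k := by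
    have hS : uu (2 * k) k j ∈ Supp (2 * k) fun l => k ≤ l :=
      uu_Supp (k := k) (fun l h1 _ => h1) hj
    have := hom_zr_fix (f := (uu (2 * k) k j : FG (2 * k) →* FG (2 * k))) (i := 0) (j := k) (fun l h1 h2 => by
      have := hS.1 l (by omega)
      exact gz_fix this.1 this.2)
    exact this
  rw [h1]
  exact zr_fix_of_supp (by omega) (uu_Supp (k := k) (fun l _ h2 => by omega) hj) (uu_mem _ _ _)

theorem UU_inv_q {k j : ℕ} (hj : j < 2 * k) : (UU k j)⁻¹ (zr (2 * k) 0 k) = zr (2 * k) 0 k := by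
  have := UU_q hj
  conv_lhs => rw [← this]
  rw [MulAut.inv_apply_self]

theorem IsW.UU {Q : Type*} [Group Q] {k j : ℕ} (hj : j < 2 * k) {ψ : FG (2 * k) →* Q} (h : IsW k ψ) :
    IsW k (ψ.comp ((UU k j)⁻¹ : MulAut (FG (2 * k))).toMonoidHom) where
  inv := by
    intro x
    change ψ ((Hz.UU k j)⁻¹ (theta k x)) = ψ ((Hz.UU k j)⁻¹ x)
    rw [← theta_UU_inv hj, h.inv]
  q := by
    change ψ ((Hz.UU k j)⁻¹ (zr (2 * k) 0 k)) = 1
    rw [UU_inv_q hj, h.q]

theorem TT_stab0 {Q : Type*} [Group Q] {k : ℕ} (hk : 1 ≤ k) (d : ℕ) (hd : d ≤ 2 * k) :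
    ∀ ψ : FG (2 * k) →* Q, IsW k ψ → TT k d ∈ stab0 ψ := by
  induction d with
  | zero => intro ψ hψ; exact tauN_stab0 ψ (hψ.nu_one hk)
  | succ d ih =>
    intro ψ hψ x
    have h1 := ih (by omega) _ (IsW.UU (j := 2 * k - 1 - d) (by omega) hψ) (Hz.UU k (2 * k - 1 - d) x)
    change ψ ((Hz.UU k (2 * k - 1 - d))⁻¹ (TT k d (Hz.UU k (2 * k - 1 - d) x))) =
      ψ ((Hz.UU k (2 * k - 1 - d))⁻¹ (Hz.UU k (2 * k - 1 - d) x)) at h1
    rw [MulAut.inv_apply_self] at h1
    exact h1

theorem Tj_stab0 {Q : Type*} [Group Q] {k : ℕ} (hk : 1 ≤ k) (j : ℕ) (ψ : FG (2 * k) →* Q) (hψ : IsW k ψ) :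
    Tj k j ∈ stab0 ψ := TT_stab0 hk _ (by omega) ψ hψ

/-! ### passage to `Out(π_1)` -/

section out
variable {g : ℕ} {Q : Type*} [Group Q] (χ : FG g →* Q) (hR : χ (R g) = 1)

/-- the induced homomorphism of the closed surface group -/
def bar : Sg g →* Q :=
  QuotientGroup.lift _ χ (by
    intro x hx
    have : Subgroup.normalClosure ({R g} : Set (FG g)) ≤ χ.ker :=
      Subgroup.normalClosure_le_normal (by rintro _ rfl; exact hR)
    exact this hx)

theorem bar_mk (x : FG g) : bar χ hR (PresentedGroup.mk {R g} x) = χ x := rfl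

/-- outer automorphisms with a lift that preserves `bar χ` -/
def stabO : Subgroup (OutS g) :=
  Subgroup.map (QuotientGroup.mk' _) 
    { carrier := {T : MulAut (Sg g) | ∀ x, bar χ hR (T x) = bar χ hR x}
      mul_mem' := by
        intro S T h1 h2 x
        rw [MulAut.mul_apply, h1, h2]
      one_mem' := fun x => rfl
      inv_mem' := by
        intro T h x
        have := h (T⁻¹ x)
        rw [MulAut.apply_inv_self] at this
        exact this.symm }

theorem toOut_stabO {T : AR g} (hT : (T : MulAut (FG g)) ∈ stab0 χ) : toOut g T ∈ stabO χ hR := by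
  refine ⟨toAutS g T, ?_, rfl⟩
  intro x
  induction x using QuotientGroup.induction_on with
  | H x => exact hT x

theorem of_toOut_stabO {T : AR g} (hT : toOut g T ∈ stabO χ hR) :
    ∃ q : Q, ∀ x, χ ((T : MulAut (FG g)) x) = q * χ x * q⁻¹ := by
  obtain ⟨S, hS, hST⟩ := hT
  change QuotientGroup.mk S = QuotientGroup.mk (toAutS g T) at hST
  rw [QuotientGroup.eq] at hST
  obtain ⟨y, hy⟩ := hST
  refine ⟨bar χ hR y, fun x => ?_⟩
  have h1 : toAutS g T = S * MulAut.conj y := by rw [hy]; group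
  have h2 : bar χ hR (toAutS g T (PresentedGroup.mk {R g} x)) =
      bar χ hR (S (MulAut.conj y (PresentedGroup.mk {R g} x))) := by rw [h1]; rfl
  rw [toAutS_mk, bar_mk] at h2
  have h3 := hS (MulAut.conj y (PresentedGroup.mk {R g} x))
  rw [h2, h3, MulAut.conj_apply, map_mul, map_mul, map_inv, bar_mk]

end out

/-! ### the homomorphism `χ` to the group presented by `X` -/

section final
variable (k : ℕ) (X : Set (FreeGroup (Fin (k - 2))))

/-- `b_l, b_{k+l} ↦ x_l` for `l < k - 2`, the other generators go to `1` -/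
def betaX (l : ℕ) : FreeGroup (Fin (k - 2)) ⧸ Subgroup.normalClosure X :=
  if h : l < k - 2 then QuotientGroup.mk (FreeGroup.of ⟨l, h⟩)
  else if h : k ≤ l ∧ l - k < k - 2 then QuotientGroup.mk (FreeGroup.of ⟨l - k, h.2⟩) else 1

def chiX : FG (2 * k) →* FreeGroup (Fin (k - 2)) ⧸ Subgroup.normalClosure X :=
  mkHom (2 * k) (fun _ => 1) (betaX k X)

theorem betaX_sw {l : ℕ} (hl : l < 2 * k) : betaX k X (sw k l) = betaX k X l := by
  unfold sw
  split_ifs with h
  · unfold betaX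
    rw [dif_neg (by omega)]
    by_cases h2 : l < k - 2
    · rw [dif_pos (by omega), dif_pos h2]
      congr 3
      simp
    · rw [dif_neg (by omega), dif_neg h2, dif_neg (by omega)]
  · unfold betaX
    by_cases h2 : l - k < k - 2
    · rw [dif_pos h2, dif_neg (by omega), dif_pos ⟨by omega, h2⟩]
    · rw [dif_neg h2, dif_neg (by omega), dif_neg (by omega), dif_neg (by omega)]

theorem chiX_ga (l : ℕ) : chiX k X (ga (2 * k) l) = 1 := by
  by_cases h : l < 2 * k
  · rw [chiX, mkHom_ga _ _ h]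
  · rw [ga_of_ge h, map_one]

theorem chiX_gb {l : ℕ} (h : l < 2 * k) : chiX k X (gb (2 * k) l) = betaX k X l := by
  rw [chiX, mkHom_gb _ _ h]

theorem chiX_gz (l : ℕ) : chiX k X (gz (2 * k) l) = 1 := map_gz_one _ (chiX_ga k X l)

theorem chiX_zr (i j : ℕ) : chiX k X (zr (2 * k) i j) = 1 := map_zr_one _ fun l _ _ => chiX_gz k X l

theorem chiX_R : chiX k X (R (2 * k)) = 1 := chiX_zr k X _ _

theorem chiX_isW : IsW k (chiX k X) where
  inv := by
    intro x
    have : (chiX k X).comp (theta k) = chiX k X := by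
      refine fg_hom_ext (fun l hl => ?_) (fun l hl => ?_)
      · rw [MonoidHom.comp_apply, theta_ga hl, chiX_ga, chiX_ga]
      · rw [MonoidHom.comp_apply, theta_gb hl, chiX_gb k X (sw_lt hl), chiX_gb k X hl, betaX_sw k X hl]
    exact DFunLike.congr_fun this x
  q := chiX_zr k X _ _

theorem chiX_mu (i j : ℕ) : chiX k X (mu (2 * k) i j) = 1 := by
  simp [mu, chiX_ga, chiX_zr]

theorem betaX_one {l : ℕ} (h : l = k - 2 ∨ l = k - 1 ∨ l = 2 * k - 2 ∨ l = 2 * k - 1) : betaX k X l = 1 := by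
  unfold betaX
  rw [dif_neg (by omega), dif_neg (by omega)]

theorem chiX_nu {i : ℕ} (h : i + 1 < k) : chiX k X (nu (2 * k) i (k + i)) = 1 := by
  have h1 := betaX_sw k X (l := i) (by omega)
  rw [show sw k i = k + i by unfold sw; rw [if_pos (by omega)]; omega] at h1
  simp [nu, chiX_ga, chiX_zr, chiX_gb k X (show i < 2 * k by omega), chiX_gb k X (show k + i < 2 * k by omega),
    h1]

theorem addT_stab0 {t : MulAut (FG (2 * k))} (ht : t ∈ addT k) : t ∈ stab0 (chiX k X) := by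
  rcases ht with (((⟨i, hi, rfl⟩ | ⟨i, hi, rfl⟩) | ⟨i, hi, rfl⟩) | ⟨i, hi, rfl⟩) | ⟨j, hj, rfl⟩
  · exact tauA_stab0 _ (chiX_ga k X i)
  · by_cases h : i < 2 * k
    · exact tauB_stab0 _ (by rw [chiX_gb k X h, betaX_one k X hi])
    · exact tauB_stab0 _ (by rw [gb_of_ge h, map_one])
  · exact tauN_stab0 _ (chiX_nu k X hi)
  · exact tauM_stab0 _ (chiX_mu k X _ _)
  · exact tauM_stab0 _ (chiX_mu k X _ _)

theorem chiX_eq_chiq (h : ℕ) : chiX k X = chiq (2 * k) h (betaX k X) 1 := by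
  unfold chiX chiq
  congr 1
  funext l
  split_ifs with c
  · rw [c, mul_one]
  · rfl

theorem mk_xin (hk : 2 ≤ k) (r : FreeGroup (Fin (k - 2))) :
    mkHom (2 * k - 2) (fun _ => (1 : FreeGroup (Fin (k - 2)) ⧸ Subgroup.normalClosure X)) (betaX k X)
      (xin (k - 2) (2 * k - 2) r) = QuotientGroup.mk r := by
  have : (mkHom (2 * k - 2) (fun _ => (1 : FreeGroup (Fin (k - 2)) ⧸ Subgroup.normalClosure X))
      (betaX k X)).comp (xin (k - 2) (2 * k - 2)) = QuotientGroup.mk' _ := by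
    refine FreeGroup.ext_hom _ _ fun i => ?_
    have hi := i.2
    rw [MonoidHom.comp_apply, xin, FreeGroup.lift_apply_of, mkHom_gb _ _ (by omega), betaX, dif_pos hi]
    rfl
  exact DFunLike.congr_fun this r

theorem chiX_phi (hk : 2 ≤ k) (r : FreeGroup (Fin (k - 2))) (x : FG (2 * k)) :
    chiX k X (phi (2 * k) (2 * k - 2) (xin (k - 2) (2 * k - 2) r) x) =
      chiq (2 * k) (2 * k - 2) (betaX k X) (QuotientGroup.mk r) x := by
  rw [chiX_eq_chiq k X (2 * k - 2), chiq_phi (by omega), mk_xin k X hk, one_mul]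

theorem eT_stab0 (hk : 2 ≤ k) {r : FreeGroup (Fin (k - 2))} (hr : r ∈ X) :
    eT (2 * k) (2 * k - 2) (xin (k - 2) (2 * k - 2) r) ∈ stab0 (chiX k X) := by
  have h1 : (QuotientGroup.mk r : FreeGroup (Fin (k - 2)) ⧸ Subgroup.normalClosure X) = 1 :=
    (QuotientGroup.eq_one_iff r).2 (Subgroup.subset_normalClosure hr)
  have h2 : phi (2 * k) (2 * k - 2) (xin (k - 2) (2 * k - 2) r) ∈ stab0 (chiX k X) := by
    intro x
    rw [chiX_phi k X hk, h1, ← chiX_eq_chiq]
  have h3 : tauB (2 * k) (2 * k - 2) ∈ stab0 (chiX k X) :=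
    tauB_stab0 _ (by rw [chiX_gb k X (by omega), betaX_one k X (by omega)])
  exact mul_mem (mul_mem h2 h3) (inv_mem h2)

theorem G_lower {k : ℕ} (hk : 2 ≤ k) (Gp : Subgroup (OutS (2 * k))) (X : Set (FreeGroup (Fin (k - 2))))
    (hG : Gp = Subgroup.closure
      ({f | ∃ j ≤ 2 * k, f = toOut _ ⟨Tj k j, Tj_mem k j⟩} ∪ {toOut _ ⟨delta (2 * k) k, delta_R _ _⟩} ∪
       {f | ∃ t, ∃ ht : t ∈ AR (2 * k), t ∈ addT k ∧ f = toOut _ ⟨t, ht⟩} ∪
       {f | ∃ r ∈ X, ∃ ht, f = toOut _ ⟨eT (2 * k) (2 * k - 2) (xin (k - 2) (2 * k - 2) r), ht⟩}))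
    (hx : ∀ i : Fin (k - 2), ∀ ht,
      toOut _ ⟨eT (2 * k) (2 * k - 2) (xin (k - 2) (2 * k - 2) (FreeGroup.of i)), ht⟩ ∈ Gp) :
    Subgroup.normalClosure X = ⊤ := by
  have hle : Gp ≤ stabO (chiX k X) (chiX_R k X) := by
    rw [hG, Subgroup.closure_le]
    rintro f (((⟨j, hj, rfl⟩ | hf) | ⟨t, ht, h1, rfl⟩) | ⟨r, hr, ht, rfl⟩)
    · exact toOut_stabO _ _ (Tj_stab0 (by omega) j _ (chiX_isW k X))
    · rw [Set.mem_singleton_iff] at hf
      subst hf
      exact toOut_stabO _ _ (delta_stab0 _ (chiX_zr k X _ _))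
    · exact toOut_stabO _ _ (addT_stab0 k X h1)
    · exact toOut_stabO _ _ (eT_stab0 k X hk hr)
  have key : ∀ i : Fin (k - 2), FreeGroup.of i ∈ Subgroup.normalClosure X := by
    intro i
    have hmem : eT (2 * k) (2 * k - 2) (xin (k - 2) (2 * k - 2) (FreeGroup.of i)) ∈ AR (2 * k) := by
      unfold eT
      rw [← phiAR_coe]
      exact mul_mem (mul_mem (phiAR _ _ _).2 (tauB_R _ _)) (inv_mem (phiAR _ _ _).2)
    obtain ⟨q, hq⟩ := of_toOut_stabO (chiX k X) (chiX_R k X) (hle (hx i hmem))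
    have h := hq (phi (2 * k) (2 * k - 2) (xin (k - 2) (2 * k - 2) (FreeGroup.of i)) (ga (2 * k) (2 * k - 2)))
    change chiX k X (phi (2 * k) (2 * k - 2) (xin (k - 2) (2 * k - 2) (FreeGroup.of i))
      (tauB (2 * k) (2 * k - 2) ((phi (2 * k) (2 * k - 2) (xin (k - 2) (2 * k - 2) (FreeGroup.of i)))⁻¹
      (phi (2 * k) (2 * k - 2) (xin (k - 2) (2 * k - 2) (FreeGroup.of i)) (ga (2 * k) (2 * k - 2)))))) = _ at h
    rw [MulAut.inv_apply_self, chiX_phi k X hk, chiX_phi k X hk] at h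
    have h1 : 2 * k - 2 < 2 * k := by omega
    rw [tauB, tw_ga h1, chiq, mkHom_ga _ _ h1, mul_one, mul_inv_cancel] at h
    simp only [bB, and_self, decide_true, if_true, inv_inv, map_mul, mkHom_ga _ _ h1, mkHom_gb _ _ h1,
      Bool.false_eq_true, if_false, one_mul] at h
    rw [betaX_one k X (by omega), one_mul] at h
    exact (QuotientGroup.eq_one_iff _).1 h
  rw [eq_top_iff]
  intro x _
  induction x using FreeGroup.induction_on with
  | C1 => exact one_mem _
  | of i => exact key i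
  | inv_of i h => exact inv_mem (key i)
  | mul x y h1 h2 => exact mul_mem (h1 (Subgroup.mem_top _)) (h2 (Subgroup.mem_top _))

end final

end Pool.Agent.helper35.Hz
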