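import Mathlib
import Pool.Agent.helper35.Hz.Collect
import Pool.Agent.helper35.Hz.GLower

/-! # Module G, upper bound -/

namespace Pool.Agent.helper35.Hz

theorem eT_mem (g h : ℕ) (w : FG h) : eT g h w ∈ AR g := by
  unfold eT
  rw [← phiAR_coe]
  exact mul_mem (mul_mem (phiAR _ _ _).2 (tauB_R _ _)) (inv_mem (phiAR _ _ _).2)

/-- the elements of `AR g` whose underlying automorphism is in `S` -/
theorem pair_inv {g m : ℕ} (hm : m < g) (Gp : Subgroup (AR g))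
    (hA : (⟨tauA g m, tauA_R g m⟩ : AR g) ∈ Gp) {T : MulAut (FG g)} {T' : MulAut (FG m)}
    (hp : (T, T') ∈ Lpair g m) (hTR : T ∈ AR g) (hT : (⟨T, hTR⟩ : AR g) ∈ Gp) (x : FG m) :
    T' x ∈ Gp.comap (phiAR g m) ↔ x ∈ Gp.comap (phiAR g m) := by
  obtain ⟨e, he⟩ := Lpair_equiv hm hp x
  simp only at he
  have h1 : (⟨T, hTR⟩ : AR g) * phiAR g m x * (⟨T, hTR⟩ : AR g)⁻¹ =
      phiAR g m (T' x) * (⟨tauA g m, tauA_R g m⟩ : AR g) ^ e := by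
    apply Subtype.ext
    simp only [Subgroup.coe_mul, Subgroup.coe_inv, Subgroup.coe_zpow, phiAR_coe]
    exact he
  have h2 : phiAR g m (T' x) = (⟨T, hTR⟩ : AR g) * phiAR g m x * (⟨T, hTR⟩ : AR g)⁻¹ *
      ((⟨tauA g m, tauA_R g m⟩ : AR g) ^ e)⁻¹ := by rw [h1]; group
  have h3 : phiAR g m x = (⟨T, hTR⟩ : AR g)⁻¹ * (phiAR g m (T' x) *
      (⟨tauA g m, tauA_R g m⟩ : AR g) ^ e) * (⟨T, hTR⟩ : AR g) := by rw [← h1]; group
  rw [Subgroup.mem_comap, Subgroup.mem_comap]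
  constructor
  · intro h
    rw [h3]
    exact mul_mem (mul_mem (inv_mem hT) (mul_mem h (zpow_mem hA _))) hT
  · intro h
    rw [h2]
    exact mul_mem (mul_mem (mul_mem hT h) (inv_mem hT)) (inv_mem (zpow_mem hA _))

theorem tauA_pair' {g m i : ℕ} (hi : i < m) : (tauA g i, tauA m i) ∈ Lpair g m :=
  Subgroup.subset_closure (Or.inl (Or.inl ⟨i, hi, rfl⟩))

theorem tauB_pair' {g m i : ℕ} (hi : i < m) : (tauB g i, tauB m i) ∈ Lpair g m :=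
  Subgroup.subset_closure (Or.inl (Or.inr ⟨i, hi, rfl⟩))

theorem G_upper {k : ℕ} (hk : 2 ≤ k) (Gp : Subgroup (AR (2 * k)))
    (h1 : ∀ f (hf : f ∈ AR (2 * k)), f ∈ addT k → (⟨f, hf⟩ : AR (2 * k)) ∈ Gp)
    (X : Set (FreeGroup (Fin (k - 2))))
    (hX : ∀ r ∈ X, ∀ hf, (⟨eT (2 * k) (2 * k - 2) (xin (k - 2) (2 * k - 2) r), hf⟩ : AR (2 * k)) ∈ Gp)
    (hn : Subgroup.normalClosure X = ⊤) :
    ∀ f (hf : f ∈ AR (2 * k)), f ∈ Lam (2 * k) → (⟨f, hf⟩ : AR (2 * k)) ∈ Gp := by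
  obtain ⟨m, hm⟩ : ∃ m, m = 2 * k - 2 + 1 := ⟨_, rfl⟩
  have hm' : m = 2 * k - 1 := by omega
  have hmg : m < 2 * k := by omega
  have addA : ∀ i, i < 2 * k → (⟨tauA (2 * k) i, tauA_R _ _⟩ : AR (2 * k)) ∈ Gp := fun i hi =>
    h1 _ _ (Or.inl (Or.inl (Or.inl (Or.inl ⟨i, hi, rfl⟩))))
  have addB : ∀ i, (i = k - 2 ∨ i = k - 1 ∨ i = 2 * k - 2 ∨ i = 2 * k - 1) →
      (⟨tauB (2 * k) i, tauB_R _ _⟩ : AR (2 * k)) ∈ Gp := fun i hi =>
    h1 _ _ (Or.inl (Or.inl (Or.inl (Or.inr ⟨i, hi, rfl⟩))))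
  have addN : ∀ i, i + 1 < k → (⟨tauN (2 * k) i (k + i), tauN_R _ _ _⟩ : AR (2 * k)) ∈ Gp := fun i hi =>
    h1 _ _ (Or.inl (Or.inl (Or.inr ⟨i, hi, rfl⟩)))
  have addM : ∀ i, i + 1 < k → (⟨tauM (2 * k) (k - 1) (k + i), tauM_R _ _ _⟩ : AR (2 * k)) ∈ Gp := fun i hi =>
    h1 _ _ (Or.inl (Or.inr ⟨i, hi, rfl⟩))
  have addM' : ∀ j, j + 1 < 2 * k → (⟨tauM (2 * k) j (j + 1), tauM_R _ _ _⟩ : AR (2 * k)) ∈ Gp := fun i hi =>
    h1 _ _ (Or.inr ⟨i, hi, rfl⟩)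
  have hAm := addA m hmg
  have hKinv : ∀ p ∈ CT k m, ∀ x, p.2 x ∈ Gp.comap (phiAR (2 * k) m) ↔ x ∈ Gp.comap (phiAR (2 * k) m) := by
    rintro p ((((⟨i, hi, rfl⟩ | ⟨i, hi, rfl⟩) | ⟨i, hi, rfl⟩) | ⟨i, hi, rfl⟩) | ⟨j, hj, rfl⟩) x
    · exact pair_inv hmg Gp hAm (tauA_pair' hi) (tauA_R _ _) (addA i (by omega)) x
    · exact pair_inv hmg Gp hAm (tauB_pair' (by omega)) (tauB_R _ _) (addB i (by omega)) x
    · exact pair_inv hmg Gp hAm (tauN_pair (by omega) (by omega) hmg.le) (tauN_R _ _ _) (addN i hi) x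
    · exact pair_inv hmg Gp hAm (tauM_pair (by omega) (by omega) hmg.le) (tauM_R _ _ _) (addM i hi) x
    · exact pair_inv hmg Gp hAm (tauM_pair (by omega) hj hmg.le) (tauM_R _ _ _) (addM' j (by omega)) x
  have hbase : gb m (2 * k - 2) * ga m (2 * k - 2) * (gb m (2 * k - 2))⁻¹ ∈ Gp.comap (phiAR (2 * k) m) := by
    have hi := phi_init (g := 2 * k) (m := 2 * k - 2) (by omega)
    rw [← hm] at hi
    rw [Subgroup.mem_comap]
    have : phiAR (2 * k) m (gb m (2 * k - 2) * ga m (2 * k - 2) * (gb m (2 * k - 2))⁻¹) =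
        (⟨tauA (2 * k) (2 * k - 2), tauA_R _ _⟩ : AR (2 * k))⁻¹ *
          ⟨tauM (2 * k) (2 * k - 2) (2 * k - 2 + 1), tauM_R _ _ _⟩ := by
      apply Subtype.ext
      rw [phiAR_coe, hi, hm]
      rfl
    rw [this]
    exact mul_mem (inv_mem (addA _ (by omega))) (addM' _ (by omega))
  have hXinv : ∀ r ∈ X, ∀ x, eT m (2 * k - 2) (xin (k - 2) (2 * k - 2) r) x ∈ Gp.comap (phiAR (2 * k) m) ↔
      x ∈ Gp.comap (phiAR (2 * k) m) := by
    intro r hr x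
    refine pair_inv hmg Gp hAm (T := eT (2 * k) (2 * k - 2) (xin (k - 2) (2 * k - 2) r)) ?_ (eT_mem _ _ _)
      (hX r hr _) x
    have hp := phi_pair (g := 2 * k) (m := m) (m' := 2 * k - 2) (by omega) hmg.le (xin (k - 2) (2 * k - 2) r)
    exact mul_mem (mul_mem hp (tauB_pair' (by omega))) (inv_mem hp)
  have hK : Gp.comap (phiAR (2 * k) m) = ⊤ := K_full hk hm' _ hKinv hbase X hXinv hn
  have hphi : ∀ w : FG m, phiAR (2 * k) m w ∈ Gp := by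
    intro w
    have : w ∈ Gp.comap (phiAR (2 * k) m) := by rw [hK]; exact Subgroup.mem_top _
    exact this
  have hBm := addB m (by omega)
  have allB : ∀ j, j < 2 * k → (⟨tauB (2 * k) j, tauB_R _ _⟩ : AR (2 * k)) ∈ Gp := by
    intro j hj
    by_cases hjm : j < m
    · have hF : (phiAR (2 * k) m (ga m j) * ⟨tauB (2 * k) m, tauB_R _ _⟩ * phiAR (2 * k) m (gb m j)) *
          ⟨tauB (2 * k) m, tauB_R _ _⟩ *
          (phiAR (2 * k) m (ga m j) * ⟨tauB (2 * k) m, tauB_R _ _⟩ * phiAR (2 * k) m (gb m j))⁻¹ =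
          (⟨tauB (2 * k) j, tauB_R _ _⟩ : AR (2 * k)) := by
        apply Subtype.ext
        simp only [Subgroup.coe_mul, Subgroup.coe_inv, phiAR_coe]
        exact phi_F hjm hmg
      rw [← hF]
      exact mul_mem (mul_mem (mul_mem (mul_mem (hphi _) hBm) (hphi _)) hBm)
        (inv_mem (mul_mem (mul_mem (hphi _) hBm) (hphi _)))
    · have : j = m := by omega
      subst this
      exact hBm
  intro f hf hfL
  have key : ∀ f ∈ Lam (2 * k), ∃ hf : f ∈ AR (2 * k), (⟨f, hf⟩ : AR (2 * k)) ∈ Gp := by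
    intro f hf
    induction hf using Subgroup.closure_induction with
    | mem x hx =>
      rcases hx with (⟨i, hi, rfl⟩ | ⟨i, hi, rfl⟩) | ⟨i, hi, rfl⟩
      · exact ⟨tauA_R _ _, addA i hi⟩
      · exact ⟨tauB_R _ _, allB i hi⟩
      · exact ⟨tauM_R _ _ _, addM' i hi⟩
    | one => exact ⟨one_mem _, one_mem _⟩
    | mul x y _ _ h1 h2 =>
      obtain ⟨a1, a2⟩ := h1
      obtain ⟨b1, b2⟩ := h2
      exact ⟨mul_mem a1 b1, mul_mem a2 b2⟩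
    | inv x _ h1 =>
      obtain ⟨a1, a2⟩ := h1
      exact ⟨inv_mem a1, inv_mem a2⟩
  obtain ⟨_, h⟩ := key f hfL
  exact h

end Pool.Agent.helper35.Hz
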