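import Mathlib
import Pool.Agent.helper35.Hz.Collect
import Pool.Agent.helper35.Hz.GLower
import Pool.Agent.helper35.Hz.GUpper

/-! # Module G, assembly of the factorization `W` -/

namespace Pool.Agent.helper35.Hz

/-! ### general facts on braid relations -/

section
variable {G : Type*} [Group G]

theorem Braid.symm {x y : G} (h : Braid x y) : Braid y x := Eq.symm h

theorem Braid.map {H : Type*} [Group H] (f : G →* H) {x y : G} (h : Braid x y) : Braid (f x) (f y) := by
  unfold Braid at *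
  rw [← map_mul, ← map_mul, ← map_mul, ← map_mul, h]

theorem Braid.conj_eq {x y : G} (h : Braid x y) : y = (x * y) * x * (x * y)⁻¹ := by
  unfold Braid at h
  rw [h]; group

theorem Braid.eq_of {x y : G} (h : Braid x y) : x = y * (x * y * x⁻¹) * y⁻¹ := by
  unfold Braid at h
  have : x * y * x⁻¹ = y⁻¹ * (y * x * y) * x⁻¹ := by group
  rw [this, ← h]; group

theorem Braid.conj {x y : G} (h : Braid x y) (c : G) : Braid (c * x * c⁻¹) (c * y * c⁻¹) :=
  Braid.map (MulAut.conj c).toMonoidHom h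

end

/-! ### `Lam` and `Mod` -/

/-- the class of an automorphism that fixes `R` (junk value `1` otherwise) -/
noncomputable def cl (g : ℕ) (f : MulAut (FG g)) : OutS g := by
  classical
  exact if h : f ∈ AR g then toOut g ⟨f, h⟩ else 1

theorem cl_of {g : ℕ} {f : MulAut (FG g)} (h : f ∈ AR g) : cl g f = toOut g ⟨f, h⟩ := by
  unfold cl; rw [dif_pos h]

theorem Lam_AR {g : ℕ} {f : MulAut (FG g)} (h : f ∈ Lam g) : f ∈ AR g := by
  have : Lam g ≤ AR g := by
    rw [Lam, Subgroup.closure_le]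
    rintro x ((⟨i, hi, rfl⟩ | ⟨i, hi, rfl⟩) | ⟨i, hi, rfl⟩)
    · exact tauA_R _ _
    · exact tauB_R _ _
    · exact tauM_R _ _ _
  exact this h

theorem cl_mul {g : ℕ} {x y : MulAut (FG g)} (hx : x ∈ AR g) (hy : y ∈ AR g) :
    cl g (x * y) = cl g x * cl g y := by
  rw [cl_of hx, cl_of hy, cl_of (mul_mem hx hy), ← map_mul]; rfl

theorem cl_inv {g : ℕ} {x : MulAut (FG g)} (hx : x ∈ AR g) : cl g x⁻¹ = (cl g x)⁻¹ := by
  rw [cl_of hx, cl_of (inv_mem hx), ← map_inv]; rfl

theorem cl_one {g : ℕ} : cl g 1 = 1 := by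
  rw [cl_of (one_mem _)]; exact map_one _

theorem Lam_Mod {g : ℕ} {f : MulAut (FG g)} (h : f ∈ Lam g) : cl g f ∈ Mod g := by
  unfold Lam at h
  induction h using Subgroup.closure_induction with
  | mem x hx =>
    rcases hx with (⟨i, hi, rfl⟩ | ⟨i, hi, rfl⟩) | ⟨i, hi, rfl⟩
    · rw [cl_of (tauA_R _ _)]
      exact Subgroup.subset_closure ⟨Sum.inl ⟨i, hi⟩, rfl⟩
    · rw [cl_of (tauB_R _ _)]
      exact Subgroup.subset_closure ⟨Sum.inr (Sum.inl ⟨i, hi⟩), rfl⟩
    · rw [cl_of (tauM_R _ _ _)]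
      exact Subgroup.subset_closure ⟨Sum.inr (Sum.inr ⟨i, by omega⟩), rfl⟩
  | one => rw [cl_one]; exact one_mem _
  | mul x y hx hy h1 h2 => rw [cl_mul (Lam_AR hx) (Lam_AR hy)]; exact mul_mem h1 h2
  | inv x hx h1 => rw [cl_inv (Lam_AR hx)]; exact inv_mem h1

theorem Mod_le {g : ℕ} {Gp : Subgroup (OutS g)} (h : ∀ f ∈ Lam g, cl g f ∈ Gp) : Mod g ≤ Gp := by
  rw [Mod, Subgroup.closure_le]
  rintro _ ⟨i, rfl⟩
  rcases i with i | i | i
  · have := h (tauA g i) (Subgroup.subset_closure (Or.inl (Or.inl ⟨i, i.2, rfl⟩)))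
    rwa [cl_of (tauA_R _ _)] at this
  · have := h (tauB g i) (Subgroup.subset_closure (Or.inl (Or.inr ⟨i, i.2, rfl⟩)))
    rwa [cl_of (tauB_R _ _)] at this
  · have := h (tauM g i (i + 1)) (Subgroup.subset_closure (Or.inr ⟨i, by omega, rfl⟩))
    rwa [cl_of (tauM_R _ _ _)] at this

theorem tauA_Lam {g i : ℕ} (hi : i < g) : tauA g i ∈ Lam g :=
  Subgroup.subset_closure (Or.inl (Or.inl ⟨i, hi, rfl⟩))

theorem tauB_Lam {g i : ℕ} (hi : i < g) : tauB g i ∈ Lam g :=
  Subgroup.subset_closure (Or.inl (Or.inr ⟨i, hi, rfl⟩))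

theorem Braid.cl {g : ℕ} {x y : MulAut (FG g)} (h : Braid x y) (hx : x ∈ AR g) (hy : y ∈ AR g) :
    Braid (Hz.cl g x) (Hz.cl g y) := by
  unfold Braid at *
  rw [← cl_mul hx hy, ← cl_mul hy hx, ← cl_mul (mul_mem hx hy) hx, ← cl_mul (mul_mem hy hx) hy, h]

/-! ### positive Dehn twists -/

theorem PosTwist_conj {g : ℕ} {γ f : OutS g} (hγ : γ ∈ Mod g) (hf : f ∈ PosTwist g) :
    γ * f * γ⁻¹ ∈ PosTwist g := by
  obtain ⟨c, hc, h⟩ := hf
  refine ⟨γ * c, mul_mem hγ hc, ?_⟩
  rcases h with h | ⟨j, h1, h2, h⟩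
  · left; rw [h]; group
  · right; exact ⟨j, h1, h2, by rw [h]; group⟩

theorem PosTwist_braid {g : ℕ} {x y : OutS g} (h : Braid x y) (hx : x ∈ PosTwist g) (hx' : x ∈ Mod g)
    (hy : y ∈ Mod g) : y ∈ PosTwist g := by
  rw [h.conj_eq]
  exact PosTwist_conj (mul_mem hx' hy) hx

theorem pos_tauA {g i : ℕ} (hi : i < g) : cl g (tauA g i) ∈ PosTwist g := by
  induction i with
  | zero =>
    refine ⟨1, one_mem _, Or.inl ?_⟩
    rw [cl_of (tauA_R _ _)]; group
  | succ i ih =>
    have h0 := ih (by omega)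
    have hA := Lam_Mod (tauA_Lam (show i < g by omega))
    have hB := Lam_Mod (tauB_Lam (show i < g by omega))
    have hM := Lam_Mod (tauM_Lam (show i < i + 1 by omega) hi)
    have hB' := Lam_Mod (tauB_Lam hi)
    have hA' := Lam_Mod (tauA_Lam hi)
    have h1 := PosTwist_braid ((braid_A_B (show i < g by omega)).cl (tauA_R _ _) (tauB_R _ _)) h0 hA hB
    have h2 := PosTwist_braid ((braid_B_M1 (show i < i + 1 by omega) hi).cl (tauB_R _ _) (tauM_R _ _ _)) h1 hB hM
    have h3 := PosTwist_braid ((braid_B_M2 (show i < i + 1 by omega) hi).symm.cl (tauM_R _ _ _) (tauB_R _ _))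
      h2 hM hB'
    exact PosTwist_braid ((braid_A_B hi).symm.cl (tauB_R _ _) (tauA_R _ _)) h3 hB' hA'

theorem pos_tauB {g i : ℕ} (hi : i < g) : cl g (tauB g i) ∈ PosTwist g :=
  PosTwist_braid ((braid_A_B hi).cl (tauA_R _ _) (tauB_R _ _)) (pos_tauA hi) (Lam_Mod (tauA_Lam hi))
    (Lam_Mod (tauB_Lam hi))

theorem pos_tauM {g i j : ℕ} (h : i < j) (hj : j < g) : cl g (tauM g i j) ∈ PosTwist g :=
  PosTwist_braid ((braid_B_M1 h hj).cl (tauB_R _ _) (tauM_R _ _ _)) (pos_tauB (by omega))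
    (Lam_Mod (tauB_Lam (by omega))) (Lam_Mod (tauM_Lam h hj))

theorem pos_tauN {g i j : ℕ} (h : i < j) (hj : j < g) : cl g (tauN g i j) ∈ PosTwist g :=
  PosTwist_braid ((braid_A_N1 h hj).cl (tauA_R _ _) (tauN_R _ _ _)) (pos_tauA (by omega))
    (Lam_Mod (tauA_Lam (by omega))) (Lam_Mod (tauN_Lam h hj))

theorem uu_Lam {g off k j : ℕ} (h : off + k ≤ g) (hj : j < 2 * k) : uu g off j ∈ Lam g := by
  unfold uu
  split_ifs with c1 c2
  · exact tauB_Lam (by omega)
  · exact mul_mem (mul_mem (tauB_Lam (by omega)) (tauA_Lam (by omega))) (inv_mem (tauB_Lam (by omega)))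
  · exact tauN_Lam (by omega) (by omega)

theorem UU_Lam {k j : ℕ} (hj : j < 2 * k) : UU k j ∈ Lam (2 * k) :=
  mul_mem (uu_Lam (k := k) (by omega) hj) (uu_Lam (k := k) (by omega) hj)

theorem pos_TT {k : ℕ} (hk : 1 ≤ k) (d : ℕ) (hd : d ≤ 2 * k) :
    cl (2 * k) (TT k d) ∈ PosTwist (2 * k) ∧ cl (2 * k) (TT k d) ∈ Mod (2 * k) := by
  induction d with
  | zero => exact ⟨pos_tauN (by omega) (by omega), Lam_Mod (tauN_Lam (by omega) (by omega))⟩
  | succ d ih =>
    obtain ⟨h1, h2⟩ := ih (by omega)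
    have hU : UU k (2 * k - 1 - d) ∈ Lam (2 * k) := UU_Lam (by omega)
    have hU' := Lam_Mod hU
    have e : cl (2 * k) (TT k (d + 1)) = (cl (2 * k) (UU k (2 * k - 1 - d)))⁻¹ * cl (2 * k) (TT k d) *
        ((cl (2 * k) (UU k (2 * k - 1 - d)))⁻¹)⁻¹ := by
      rw [inv_inv, ← cl_inv (UU_mem _ _), ← cl_mul (inv_mem (UU_mem _ _)) (TT_mem _ _),
        ← cl_mul (mul_mem (inv_mem (UU_mem _ _)) (TT_mem _ _)) (UU_mem _ _)]
      rfl
    rw [e]
    exact ⟨PosTwist_conj (inv_mem hU') h1, mul_mem (mul_mem (inv_mem hU') h2) (inv_mem (inv_mem hU'))⟩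

theorem pos_Tj {k : ℕ} (hk : 1 ≤ k) (j : ℕ) :
    cl (2 * k) (Tj k j) ∈ PosTwist (2 * k) ∧ cl (2 * k) (Tj k j) ∈ Mod (2 * k) := pos_TT hk _ (by omega)

theorem pos_delta {k : ℕ} (hk : 1 ≤ k) :
    cl (2 * k) (delta (2 * k) k) ∈ PosTwist (2 * k) ∧ cl (2 * k) (delta (2 * k) k) ∈ Mod (2 * k) := by
  refine ⟨⟨1, one_mem _, Or.inr ⟨k, hk, by omega, ?_⟩⟩, Lam_Mod (delta_Lam hk (by omega))⟩
  rw [cl_of (delta_R _ _)]; group

/-! ### lists with prescribed generated subgroup -/

/-- there is a factorization whose entries generate the same subgroup as `S` -/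
def Good (g : ℕ) (S : Set (OutS g)) : Prop :=
  ∃ W : List (OutS g), IsFact (PosTwist g) W ∧ (∀ f ∈ W, f ∈ Mod g) ∧
    Subgroup.closure {f | f ∈ W} = Subgroup.closure S

theorem prod_conj {G : Type*} [Group G] (c : G) (l : List G) :
    (l.map fun f => c * f * c⁻¹).prod = c * l.prod * c⁻¹ := by
  exact (map_list_prod (MulAut.conj c) l).symm

theorem Good.insert {g : ℕ} {S : Set (OutS g)} (h : Good g S) {e s : OutS g} (he : e ∈ PosTwist g)
    (heM : e ∈ Mod g) (hs : s ∈ Subgroup.closure S) (hb : Braid e s) : Good g (insert e S) := by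
  obtain ⟨W, ⟨h1, h2⟩, h3, h4⟩ := h
  refine ⟨W ++ W.map fun f => e * f * e⁻¹, ⟨?_, ?_⟩, ?_, ?_⟩
  · intro f hf
    rw [List.mem_append] at hf
    rcases hf with hf | hf
    · exact h1 f hf
    · rw [List.mem_map] at hf
      obtain ⟨f', hf', rfl⟩ := hf
      exact PosTwist_conj heM (h1 _ hf')
  · rw [List.prod_append, prod_conj, h2]; group
  · intro f hf
    rw [List.mem_append] at hf
    rcases hf with hf | hf
    · exact h3 f hf
    · rw [List.mem_map] at hf
      obtain ⟨f', hf', rfl⟩ := hf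
      exact mul_mem (mul_mem heM (h3 _ hf')) (inv_mem heM)
  · apply le_antisymm
    · rw [Subgroup.closure_le]
      have hle : Subgroup.closure S ≤ Subgroup.closure (Insert.insert e S) :=
        Subgroup.closure_mono (Set.subset_insert _ _)
      have hee : e ∈ Subgroup.closure (Insert.insert e S) := Subgroup.subset_closure (Set.mem_insert _ _)
      intro f hf
      rcases List.mem_append.1 hf with hf | hf
      rotate_left
      · obtain ⟨f', hf', rfl⟩ := List.mem_map.1 hf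
        have : f' ∈ Subgroup.closure S := h4 ▸ Subgroup.subset_closure hf'
        exact mul_mem (mul_mem hee (hle this)) (inv_mem hee)
      · exact hle (h4 ▸ Subgroup.subset_closure hf)
    · rw [Subgroup.closure_le]
      set C := Subgroup.closure {f | f ∈ W ++ W.map fun f => e * f * e⁻¹} with hC
      have hSC : Subgroup.closure S ≤ C := by
        rw [← h4, Subgroup.closure_le]
        intro f hf
        exact Subgroup.subset_closure (List.mem_append_left _ hf)
      have hSC' : ∀ x ∈ Subgroup.closure S, e * x * e⁻¹ ∈ C := by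
        intro x hx
        rw [← h4] at hx
        have : Subgroup.closure {f | f ∈ W} ≤ C.comap (MulAut.conj e).toMonoidHom := by
          rw [Subgroup.closure_le]
          intro f hf
          exact Subgroup.subset_closure (List.mem_append_right _ (List.mem_map.2 ⟨f, hf, rfl⟩))
        exact this hx
      rintro x (rfl | hx)
      · have h5 := hSC' s hs
        have h6 := hb.eq_of
        rw [SetLike.mem_coe, h6]
        exact mul_mem (mul_mem (hSC hs) h5) (inv_mem (hSC hs))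
      · exact hSC (Subgroup.subset_closure hx)

theorem Good.union {g : ℕ} {S : Set (OutS g)} (h : Good g S) {E : Set (OutS g)} (hfin : E.Finite)
    (hE : ∀ e ∈ E, e ∈ PosTwist g ∧ e ∈ Mod g ∧ ∃ s ∈ Subgroup.closure S, Braid e s) : Good g (S ∪ E) := by
  induction E, hfin using Set.Finite.induction_on with
  | empty => simpa using h
  | @insert e E _ _ ih =>
    have h1 := ih fun e' he' => hE e' (Set.mem_insert_of_mem _ he')
    obtain ⟨a1, a2, s, hs, hb⟩ := hE e (Set.mem_insert _ _)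
    have := h1.insert a1 a2 (Subgroup.closure_mono Set.subset_union_left hs) hb
    rwa [Set.union_insert]

end Pool.Agent.helper35.Hz
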