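import Mathlib
import Pool.Agent.helper35.Hz.GMain

/-! # Module G: the factorization `W` with the required properties -/

namespace Pool.Agent.helper35.Hz

theorem cl_pow {g : ℕ} {x : MulAut (FG g)} (hx : x ∈ AR g) (n : ℕ) : cl g (x ^ n) = cl g x ^ n := by
  rw [cl_of hx, cl_of (pow_mem hx n), ← map_pow]; rfl

/-- the base factorization -/
noncomputable def W0 (k : ℕ) : List (OutS (2 * k)) :=
  ((List.range (2 * k + 1)).map fun j => cl (2 * k) (Tj k j)) ++ [cl (2 * k) (delta (2 * k) k)]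

/-- the entries of the base factorization -/
def S0 (k : ℕ) : Set (OutS (2 * k)) :=
  {f | ∃ j ≤ 2 * k, f = cl (2 * k) (Tj k j)} ∪ {cl (2 * k) (delta (2 * k) k)}

theorem W0_prod {k : ℕ} (hk : 1 ≤ k) : (W0 k ++ W0 k).prod = 1 := by
  have h := mck_relation k hk
  rw [pow_two] at h
  rw [List.prod_append]
  have : (W0 k).prod = ((List.range (2 * k + 1)).map fun j => toOut (2 * k) ⟨Tj k j, Tj_mem k j⟩).prod *
      toOut (2 * k) ⟨delta (2 * k) k, delta_R (2 * k) k⟩ := by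
    rw [W0, List.prod_append, List.prod_singleton, cl_of (delta_R _ _)]
    congr 2
    exact List.map_congr_left fun j _ => cl_of (Tj_mem k j)
  rw [this, h]

theorem mem_W0 {k : ℕ} {f : OutS (2 * k)} : f ∈ W0 k ↔ f ∈ S0 k := by
  unfold W0 S0
  rw [List.mem_append, List.mem_map, List.mem_singleton]
  constructor
  · rintro (⟨j, hj, rfl⟩ | h)
    · rw [List.mem_range] at hj
      exact Or.inl ⟨j, by omega, rfl⟩
    · exact Or.inr h
  · rintro (⟨j, hj, rfl⟩ | h)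
    · exact Or.inl ⟨j, by rw [List.mem_range]; omega, rfl⟩
    · exact Or.inr h

theorem good_S0 {k : ℕ} (hk : 1 ≤ k) : Good (2 * k) (S0 k) := by
  have hS : ∀ f ∈ S0 k, f ∈ PosTwist (2 * k) ∧ f ∈ Mod (2 * k) := by
    rintro f (⟨j, _, rfl⟩ | hf)
    · exact pos_Tj hk j
    · rw [Set.mem_singleton_iff] at hf; subst hf; exact pos_delta hk
  have hm : ∀ f, f ∈ W0 k ++ W0 k ↔ f ∈ S0 k := by
    intro f; rw [List.mem_append, mem_W0]; exact or_self_iff
  refine ⟨W0 k ++ W0 k, ⟨fun f hf => (hS f ((hm f).1 hf)).1, W0_prod hk⟩,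
    fun f hf => (hS f ((hm f).1 hf)).2, ?_⟩
  congr 1
  ext f
  exact hm f

theorem finite_fam {α : Type*} (n : ℕ) (p : ℕ → Prop) (hp : ∀ i, p i → i < n) (f : ℕ → α) :
    {x | ∃ i, p i ∧ x = f i}.Finite := by
  refine ((Finset.range n).finite_toSet.image f).subset ?_
  rintro x ⟨i, hi, rfl⟩
  exact ⟨i, by simpa using hp i hi, rfl⟩

/-- the classes of the added twists -/
def clT (k : ℕ) : Set (OutS (2 * k)) := {f | ∃ t ∈ addT k, f = cl (2 * k) t}

theorem good_all {k : ℕ} (hk : 2 ≤ k) : Good (2 * k) (S0 k ∪ clT k) := by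
  have hsub : ∀ {S : Set (OutS (2 * k))} {x}, x ∈ S → x ∈ Subgroup.closure S := fun h =>
    Subgroup.subset_closure h
  -- stage 1: the twists along a_i
  have g1 : Good (2 * k) (S0 k ∪ {x | ∃ i, i < 2 * k ∧ x = cl (2 * k) (tauA (2 * k) i)}) := by
    refine (good_S0 (by omega)).union (finite_fam (2 * k) _ (fun i h => h) _) ?_
    rintro _ ⟨i, hi, rfl⟩
    refine ⟨pos_tauA hi, Lam_Mod (tauA_Lam hi), ?_⟩
    by_cases h : i < k
    · exact ⟨_, hsub (Or.inl ⟨2 * i + 2, by omega, rfl⟩), ((Tj_braid h).1.cl (Tj_mem _ _) (tauA_R _ _)).symm⟩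
    · have h2 := (Tj_braid (k := k) (i := i - k) (by omega)).2
      rw [show k + (i - k) = i by omega] at h2
      exact ⟨_, hsub (Or.inl ⟨2 * (i - k) + 2, by omega, rfl⟩), (h2.cl (Tj_mem _ _) (tauA_R _ _)).symm⟩
  -- stage 2
  have g2 := g1.union (E := {x | ∃ i, (i = k - 2 ∨ i = k - 1 ∨ i = 2 * k - 2 ∨ i = 2 * k - 1) ∧
      x = cl (2 * k) (tauB (2 * k) i)}) (finite_fam (2 * k) _ (fun i h => by omega) _) (by
    rintro _ ⟨i, hi, rfl⟩
    have hi' : i < 2 * k := by omega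
    exact ⟨pos_tauB hi', Lam_Mod (tauB_Lam hi'), _, hsub (Or.inr ⟨i, hi', rfl⟩),
      (braid_A_B hi').symm.cl (tauB_R _ _) (tauA_R _ _)⟩)
  -- stage 3
  have g3 := g2.union (E := {x | ∃ i, i + 1 < k ∧ x = cl (2 * k) (tauN (2 * k) i (k + i))})
    (finite_fam (2 * k) _ (fun i h => by omega) _) (by
    rintro _ ⟨i, hi, rfl⟩
    have hi' : i < 2 * k := by omega
    exact ⟨pos_tauN (by omega) (by omega), Lam_Mod (tauN_Lam (by omega) (by omega)), _,
      hsub (Or.inl (Or.inr ⟨i, hi', rfl⟩)),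
      ((braid_A_N1 (by omega) (by omega)).cl (tauA_R _ _) (tauN_R _ _ _)).symm⟩)
  -- stage 4
  have hBk : cl (2 * k) (tauB (2 * k) (k - 1)) ∈ Subgroup.closure
      ((((S0 k ∪ {x | ∃ i, i < 2 * k ∧ x = cl (2 * k) (tauA (2 * k) i)}) ∪
      {x | ∃ i, (i = k - 2 ∨ i = k - 1 ∨ i = 2 * k - 2 ∨ i = 2 * k - 1) ∧
      x = cl (2 * k) (tauB (2 * k) i)})) ∪ {x | ∃ i, i + 1 < k ∧ x = cl (2 * k) (tauN (2 * k) i (k + i))}) :=
    hsub (Or.inl (Or.inr ⟨k - 1, by omega, rfl⟩))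
  have g4 := g3.union (E := {x | ∃ i, i + 1 < k ∧ x = cl (2 * k) (tauM (2 * k) (k - 1) (k + i))})
    (finite_fam (2 * k) _ (fun i h => by omega) _) (by
    rintro _ ⟨i, hi, rfl⟩
    exact ⟨pos_tauM (by omega) (by omega), Lam_Mod (tauM_Lam (by omega) (by omega)), _, hBk,
      ((braid_B_M1 (by omega) (by omega)).cl (tauB_R _ _) (tauM_R _ _ _)).symm⟩)
  -- stage 5
  have g5 := g4.union (E := {x | ∃ j, j + 1 < 2 * k ∧ x = cl (2 * k) (tauM (2 * k) j (j + 1))})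
    (finite_fam (2 * k) _ (fun i h => by omega) _) (by
    rintro _ ⟨j, hj, rfl⟩
    refine ⟨pos_tauM (by omega) hj, Lam_Mod (tauM_Lam (by omega) hj), ?_⟩
    have hBk' := (Subgroup.closure_mono (Set.subset_union_left
      (t := {x | ∃ i, i + 1 < k ∧ x = cl (2 * k) (tauM (2 * k) (k - 1) (k + i))}))) hBk
    rcases Nat.lt_or_ge (j + 1) (k - 1) with c1 | c1
    · -- partner ν_{j+1,k+j+1}
      exact ⟨_, hsub (Or.inl (Or.inr ⟨j + 1, by omega, rfl⟩)),
        (braid_M_N1 (show j < j + 1 by omega) (show j + 1 < k + (j + 1) by omega) (by omega)).cl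
          (tauM_R _ _ _) (tauN_R _ _ _)⟩
    · rcases Nat.lt_or_ge (k - 1) (j + 1) with c2 | c2
      · rcases Nat.lt_or_ge j k with c3 | c3
        · have : j = k - 1 := by omega
          subst this
          exact ⟨_, hBk', ((braid_B_M1 (by omega) (by omega)).cl (tauB_R _ _) (tauM_R _ _ _)).symm⟩
        · rcases Nat.lt_or_ge (j + 1) (2 * k - 1) with c4 | c4
          · -- partner ν_{i,k+i}, i = j + 1 - k
            have h := braid_M_N2 (g := 2 * k) (i := j + 1 - k) (l := j) (j := j + 1) (by omega) (by omega)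
              (by omega)
            refine ⟨cl (2 * k) (tauN (2 * k) (j + 1 - k) (j + 1)), hsub (Or.inl (Or.inr
              ⟨j + 1 - k, by omega, ?_⟩)), h.cl (tauM_R _ _ _) (tauN_R _ _ _)⟩
            rw [show k + (j + 1 - k) = j + 1 by omega]
          · have : j = 2 * k - 2 := by omega
            subst this
            exact ⟨_, hsub (Or.inl (Or.inl (Or.inr ⟨2 * k - 2, by omega, rfl⟩))),
              ((braid_B_M1 (by omega) (by omega)).cl (tauB_R _ _) (tauM_R _ _ _)).symm⟩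
      · have : k - 1 = j + 1 := by omega
        refine ⟨_, hBk', ?_⟩
        rw [this]
        exact ((braid_B_M2 (by omega) (by omega)).cl (tauB_R _ _) (tauM_R _ _ _)).symm)
  -- conclusion
  obtain ⟨W, h1, h2, h3⟩ := g5
  refine ⟨W, h1, h2, h3.trans ?_⟩
  congr 1
  ext x
  constructor
  · rintro (((((h | ⟨i, hi, rfl⟩) | ⟨i, hi, rfl⟩) | ⟨i, hi, rfl⟩) | ⟨i, hi, rfl⟩) | ⟨i, hi, rfl⟩)
    · exact Or.inl h
    · exact Or.inr ⟨_, Or.inl (Or.inl (Or.inl (Or.inl ⟨i, hi, rfl⟩))), rfl⟩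
    · exact Or.inr ⟨_, Or.inl (Or.inl (Or.inl (Or.inr ⟨i, hi, rfl⟩))), rfl⟩
    · exact Or.inr ⟨_, Or.inl (Or.inl (Or.inr ⟨i, hi, rfl⟩)), rfl⟩
    · exact Or.inr ⟨_, Or.inl (Or.inr ⟨i, hi, rfl⟩), rfl⟩
    · exact Or.inr ⟨_, Or.inr ⟨i, hi, rfl⟩, rfl⟩
  · rintro (h | ⟨t, ((((⟨i, hi, rfl⟩ | ⟨i, hi, rfl⟩) | ⟨i, hi, rfl⟩) | ⟨i, hi, rfl⟩) | ⟨i, hi, rfl⟩), rfl⟩)
    · exact Or.inl (Or.inl (Or.inl (Or.inl (Or.inl h))))
    · exact Or.inl (Or.inl (Or.inl (Or.inl (Or.inr ⟨i, hi, rfl⟩))))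
    · exact Or.inl (Or.inl (Or.inl (Or.inr ⟨i, hi, rfl⟩)))
    · exact Or.inl (Or.inl (Or.inr ⟨i, hi, rfl⟩))
    · exact Or.inl (Or.inr ⟨i, hi, rfl⟩)
    · exact Or.inr ⟨i, hi, rfl⟩

/-! ### the main theorem of module G -/

/-- the homomorphism `P` -/
noncomputable def PP (k : ℕ) : FreeGroup (Fin (k - 2)) →* OutS (2 * k) :=
  ((toOut (2 * k)).comp (phiAR (2 * k) (2 * k - 2))).comp (xin (k - 2) (2 * k - 2))

theorem PP_eT (k : ℕ) (w : FreeGroup (Fin (k - 2))) :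
    PP k w * cl (2 * k) (tauB (2 * k) (2 * k - 2)) * (PP k w)⁻¹ =
      cl (2 * k) (eT (2 * k) (2 * k - 2) (xin (k - 2) (2 * k - 2) w)) := by
  rw [cl_of (eT_mem _ _ _), cl_of (tauB_R _ _)]
  change toOut (2 * k) (phiAR (2 * k) (2 * k - 2) (xin (k - 2) (2 * k - 2) w)) * _ *
    (toOut (2 * k) (phiAR (2 * k) (2 * k - 2) (xin (k - 2) (2 * k - 2) w)))⁻¹ = _
  rw [← map_inv, ← map_mul, ← map_mul]
  congr 1
  apply Subtype.ext
  simp [eT, phiAR_coe]

theorem eT_Lam {k : ℕ} (hk : 2 ≤ k) (w : FG (2 * k - 2)) : eT (2 * k) (2 * k - 2) w ∈ Lam (2 * k) :=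
  mul_mem (mul_mem (phi_Lam (by omega) _) (tauB_Lam (by omega))) (inv_mem (phi_Lam (by omega) _))

theorem PP_Mod {k : ℕ} (hk : 2 ≤ k) (w : FreeGroup (Fin (k - 2))) : PP k w ∈ Mod (2 * k) := by
  have h := Lam_Mod (phi_Lam (g := 2 * k) (m := 2 * k - 2) (by omega) (xin (k - 2) (2 * k - 2) w))
  rw [← phiAR_coe, cl_of (phiAR _ _ _).2] at h
  exact h

theorem top_main {k : ℕ} (hk : 2 ≤ k) : ∃ W : List (OutS (2 * k)),
    IsFact (PosTwist (2 * k)) W ∧ (∀ f ∈ W, f ∈ Mod (2 * k)) ∧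
    (∀ w, PP k w * cl (2 * k) (tauB (2 * k) (2 * k - 2)) * (PP k w)⁻¹ ∈ Subgroup.closure
      ({f | f ∈ W} ∪ {f | ∃ f' ∈ W, f = (PP k w * cl (2 * k) (tauB (2 * k) (2 * k - 2)) * (PP k w)⁻¹) * f' *
        (PP k w * cl (2 * k) (tauB (2 * k) (2 * k - 2)) * (PP k w)⁻¹)⁻¹})) ∧
    (∀ X : Set (FreeGroup (Fin (k - 2))),
      Subgroup.closure ({f | f ∈ W} ∪
        (fun w => PP k w * cl (2 * k) (tauB (2 * k) (2 * k - 2)) * (PP k w)⁻¹) '' X) = Mod (2 * k) ↔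
        Subgroup.normalClosure X = ⊤) := by
  obtain ⟨W, h1, h2, h3⟩ := good_all hk
  have hcl : ∀ x ∈ S0 k ∪ clT k, x ∈ Subgroup.closure {f | f ∈ W} := by
    intro x hx; rw [h3]; exact Subgroup.subset_closure hx
  have hA : cl (2 * k) (tauA (2 * k) (2 * k - 2)) ∈ Subgroup.closure {f | f ∈ W} :=
    hcl _ (Or.inr ⟨_, Or.inl (Or.inl (Or.inl (Or.inl ⟨2 * k - 2, by omega, rfl⟩))), rfl⟩)
  refine ⟨W, h1, h2, fun w => ?_, fun X => ?_⟩
  · -- braid relation with τ_a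
    set e := PP k w * cl (2 * k) (tauB (2 * k) (2 * k - 2)) * (PP k w)⁻¹ with he
    have hcomm : PP k w * cl (2 * k) (tauA (2 * k) (2 * k - 2)) * (PP k w)⁻¹ =
        cl (2 * k) (tauA (2 * k) (2 * k - 2)) := by
      have h := comm_phi_A (g := 2 * k) (m := 2 * k - 2) (by omega) (xin (k - 2) (2 * k - 2) w)
      have h' : PP k w * cl (2 * k) (tauA (2 * k) (2 * k - 2)) =
          cl (2 * k) (tauA (2 * k) (2 * k - 2)) * PP k w := by
        have e1 : PP k w = cl (2 * k) (phi (2 * k) (2 * k - 2) (xin (k - 2) (2 * k - 2) w)) := by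
          rw [← phiAR_coe, cl_of (phiAR _ _ _).2]; rfl
        have e2 : phi (2 * k) (2 * k - 2) (xin (k - 2) (2 * k - 2) w) ∈ AR (2 * k) := by
          rw [← phiAR_coe]; exact (phiAR _ _ _).2
        rw [e1, ← cl_mul e2 (tauA_R _ _), ← cl_mul (tauA_R _ _) e2, h.eq]
      rw [h']; group
    have hb : Braid e (cl (2 * k) (tauA (2 * k) (2 * k - 2))) := by
      have := ((braid_A_B (g := 2 * k) (i := 2 * k - 2) (by omega)).symm.cl (tauB_R _ _) (tauA_R _ _)).conj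
        (PP k w)
      rwa [hcomm] at this
    set C := Subgroup.closure ({f | f ∈ W} ∪ {f | ∃ f' ∈ W, f = e * f' * e⁻¹}) with hC
    have hle : Subgroup.closure {f | f ∈ W} ≤ C := Subgroup.closure_mono Set.subset_union_left
    have hle' : Subgroup.closure {f | f ∈ W} ≤ C.comap (MulAut.conj e).toMonoidHom := by
      rw [Subgroup.closure_le]
      intro f hf
      exact Subgroup.subset_closure (Or.inr ⟨f, hf, rfl⟩)
    have h5 : e * cl (2 * k) (tauA (2 * k) (2 * k - 2)) * e⁻¹ ∈ C := hle' hA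
    rw [hb.eq_of]
    exact mul_mem (mul_mem (hle hA) h5) (inv_mem (hle hA))
  · set G1 := Subgroup.closure ({f | f ∈ W} ∪
      (fun w => PP k w * cl (2 * k) (tauB (2 * k) (2 * k - 2)) * (PP k w)⁻¹) '' X) with hG1
    have hWle : Subgroup.closure {f | f ∈ W} ≤ G1 := Subgroup.closure_mono Set.subset_union_left
    have hle : G1 ≤ Mod (2 * k) := by
      rw [hG1, Subgroup.closure_le]
      rintro f (hf | ⟨w, _, rfl⟩)
      · exact h2 f hf
      · exact mul_mem (mul_mem (PP_Mod hk w) (Lam_Mod (tauB_Lam (by omega)))) (inv_mem (PP_Mod hk w))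
    have hG1' : G1 = Subgroup.closure
      ({f | ∃ j ≤ 2 * k, f = toOut _ ⟨Tj k j, Tj_mem k j⟩} ∪ {toOut _ ⟨delta (2 * k) k, delta_R _ _⟩} ∪
       {f | ∃ t, ∃ ht : t ∈ AR (2 * k), t ∈ addT k ∧ f = toOut _ ⟨t, ht⟩} ∪
       {f | ∃ r ∈ X, ∃ ht, f = toOut _ ⟨eT (2 * k) (2 * k - 2) (xin (k - 2) (2 * k - 2) r), ht⟩}) := by
      have hadd : ∀ t ∈ addT k, t ∈ AR (2 * k) := by
        rintro t ((((⟨i, hi, rfl⟩ | ⟨i, hi, rfl⟩) | ⟨i, hi, rfl⟩) | ⟨i, hi, rfl⟩) | ⟨i, hi, rfl⟩)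
        · exact tauA_R _ _
        · exact tauB_R _ _
        · exact tauN_R _ _ _
        · exact tauM_R _ _ _
        · exact tauM_R _ _ _
      rw [hG1, Subgroup.closure_union, h3, ← Subgroup.closure_union]
      congr 1
      ext x
      constructor
      · rintro ((h | ⟨t, ht, rfl⟩) | ⟨w, hw, rfl⟩)
        · refine Or.inl (Or.inl ?_)
          rcases h with ⟨j, hj, rfl⟩ | h
          · exact Or.inl ⟨j, hj, cl_of (Tj_mem _ _)⟩
          · right; rw [Set.mem_singleton_iff] at h ⊢; rw [h, cl_of (delta_R _ _)]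
        · exact Or.inl (Or.inr ⟨t, hadd t ht, ht, cl_of (hadd t ht)⟩)
        · refine Or.inr ⟨w, hw, eT_mem _ _ _, ?_⟩
          change PP k w * cl (2 * k) (tauB (2 * k) (2 * k - 2)) * (PP k w)⁻¹ = _
          rw [PP_eT, cl_of (eT_mem _ _ _)]
      · rintro (((⟨j, hj, rfl⟩ | h) | ⟨t, ht, ht', rfl⟩) | ⟨w, hw, ht, rfl⟩)
        · exact Or.inl (Or.inl (Or.inl ⟨j, hj, (cl_of (Tj_mem _ _)).symm⟩))
        · refine Or.inl (Or.inl (Or.inr ?_))
          rw [Set.mem_singleton_iff] at h ⊢; rw [h, cl_of (delta_R _ _)]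
        · exact Or.inl (Or.inr ⟨t, ht', (cl_of ht).symm⟩)
        · refine Or.inr ⟨w, hw, ?_⟩
          change PP k w * cl (2 * k) (tauB (2 * k) (2 * k - 2)) * (PP k w)⁻¹ = _
          rw [PP_eT, cl_of (eT_mem _ _ _)]
    constructor
    · intro h
      refine G_lower hk G1 X hG1' (fun i ht => ?_)
      rw [h, ← cl_of ht]
      exact Lam_Mod (eT_Lam hk _)
    · intro h
      apply le_antisymm hle
      have hup := G_upper hk (G1.comap (toOut (2 * k))) (fun f hf hfa => ?_) X (fun r hr hf => ?_) h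
      · refine Mod_le fun f hf => ?_
        rw [cl_of (Lam_AR hf)]
        exact hup f (Lam_AR hf) hf
      · rw [Subgroup.mem_comap, ← cl_of hf]
        exact hWle (hcl _ (Or.inr ⟨f, hfa, rfl⟩))
      · rw [Subgroup.mem_comap, ← cl_of hf, ← PP_eT]
        exact Subgroup.subset_closure (Or.inr ⟨r, hr, rfl⟩)

end Pool.Agent.helper35.Hz
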