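import Mathlib
import Pool.Agent.helper11.Boone.Rabin

/-! # The undecidable normal-generation problem with any larger number of generators -/

namespace Pool.Agent.helper35.Hz

theorem killer_mono {n n' : ℕ} (hn : n ≤ n') (rels : List (FreeGroup (Fin n)))
    (h : ¬ ComputablePred (fun w : List (Fin n × Bool) =>
      Subgroup.normalClosure (insert (FreeGroup.mk w) {r | r ∈ rels}) = ⊤)) :
    ∃ rels' : List (FreeGroup (Fin n')), ¬ ComputablePred (fun w : List (Fin n' × Bool) =>
      Subgroup.normalClosure (insert (FreeGroup.mk w) {r | r ∈ rels'}) = ⊤) := by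
  classical
  let j : Fin n → Fin n' := Fin.castLE hn
  let ι : FreeGroup (Fin n) →* FreeGroup (Fin n') := FreeGroup.map j
  let extra : List (FreeGroup (Fin n')) :=
    ((List.finRange n').filter fun i : Fin n' => decide (n ≤ (i : ℕ))).map FreeGroup.of
  refine ⟨rels.map ι ++ extra, fun hc => h ?_⟩
  -- the retraction
  let ρ : FreeGroup (Fin n') →* FreeGroup (Fin n) :=
    FreeGroup.lift fun i => if h : (i : ℕ) < n then FreeGroup.of ⟨i, h⟩ else 1
  have hρι : ∀ x, ρ (ι x) = x := by
    intro x
    have : ρ.comp ι = MonoidHom.id _ := by
      refine FreeGroup.ext_hom _ _ fun i => ?_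
      simp [ρ, ι, j]
    exact DFunLike.congr_fun this x
  have hextra : ∀ y ∈ extra, ρ y = 1 := by
    intro y hy
    simp only [extra, List.mem_map, List.mem_filter, List.mem_finRange, decide_eq_true_eq, true_and] at hy
    obtain ⟨i, hi, rfl⟩ := hy
    simp [ρ, not_lt.2 hi]
  have key : ∀ w : List (Fin n × Bool),
      Subgroup.normalClosure (insert (FreeGroup.mk w) {r | r ∈ rels}) = ⊤ ↔
      Subgroup.normalClosure (insert (FreeGroup.mk (w.map fun p => (j p.1, p.2)))
        {r | r ∈ rels.map ι ++ extra}) = ⊤ := by
    intro w
    have hw : FreeGroup.mk (w.map fun p => (j p.1, p.2)) = ι (FreeGroup.mk w) := by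
      simp [ι, FreeGroup.map.mk]
    rw [hw]
    constructor
    · intro h1
      set N := Subgroup.normalClosure (insert (ι (FreeGroup.mk w)) {r | r ∈ rels.map ι ++ extra}) with hN
      have h2 : Subgroup.normalClosure (insert (FreeGroup.mk w) {r | r ∈ rels}) ≤ N.comap ι := by
        apply Subgroup.normalClosure_le_normal
        rintro r (rfl | hr)
        · exact Subgroup.subset_normalClosure (Or.inl rfl)
        · exact Subgroup.subset_normalClosure (Or.inr (List.mem_append_left _ (List.mem_map.2 ⟨r, hr, rfl⟩)))
      rw [h1] at h2
      rw [eq_top_iff]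
      intro x _
      induction x using FreeGroup.induction_on with
      | C1 => exact one_mem _
      | of i =>
        by_cases hi : (i : ℕ) < n
        · have := h2 (Subgroup.mem_top (FreeGroup.of (⟨i, hi⟩ : Fin n)))
          rw [Subgroup.mem_comap] at this
          have e : ι (FreeGroup.of (⟨i, hi⟩ : Fin n)) = FreeGroup.of i := by
            simp [ι, j]
          rwa [e] at this
        · refine Subgroup.subset_normalClosure (Or.inr (List.mem_append_right _ ?_))
          simp only [extra, List.mem_map, List.mem_filter, List.mem_finRange, decide_eq_true_eq, true_and]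
          exact ⟨i, not_lt.1 hi, rfl⟩
      | inv_of i h => exact inv_mem (h (Subgroup.mem_top _))
      | mul x y h1 h2 => exact mul_mem (h1 (Subgroup.mem_top _)) (h2 (Subgroup.mem_top _))
    · intro h1
      set N := Subgroup.normalClosure (insert (FreeGroup.mk w) {r | r ∈ rels}) with hN
      have h2 : Subgroup.normalClosure (insert (ι (FreeGroup.mk w)) {r | r ∈ rels.map ι ++ extra}) ≤
          N.comap ρ := by
        apply Subgroup.normalClosure_le_normal
        rintro r (rfl | hr)
        · change ρ (ι (FreeGroup.mk w)) ∈ N
          rw [hρι]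
          exact Subgroup.subset_normalClosure (Or.inl rfl)
        · rcases List.mem_append.1 hr with hr | hr
          · obtain ⟨r', hr', rfl⟩ := List.mem_map.1 hr
            change ρ (ι r') ∈ N
            rw [hρι]
            exact Subgroup.subset_normalClosure (Or.inr hr')
          · change ρ r ∈ N
            rw [hextra r hr]; exact one_mem _
      rw [h1] at h2
      rw [eq_top_iff]
      intro x _
      have := h2 (Subgroup.mem_top (ι x))
      rw [Subgroup.mem_comap, hρι] at this
      exact this
  have hcomp : Computable (fun w : List (Fin n × Bool) => w.map fun p => (j p.1, p.2)) := by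
    refine (Primrec.list_map Primrec.id ?_).to_comp
    exact (Primrec.pair ((Primrec.dom_finite j).comp (Primrec.fst.comp Primrec.snd))
      (Primrec.snd.comp Primrec.snd)).to₂
  obtain ⟨f, hf, hf'⟩ := ComputablePred.computable_iff.1 hc
  refine ComputablePred.computable_iff.2
    ⟨fun w => f (w.map fun p => (j p.1, p.2)), hf.comp hcomp, ?_⟩
  funext w
  rw [key w]
  exact congrFun hf' _

end Pool.Agent.helper35.Hz
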