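import Mathlib
import Pool.Agent.helper35.Hz.Surface

/-! # The decision problems: Hurwitz equivalence of factorizations into positive Dehn twists -/

namespace Pool.Agent.helper35.Hz

/-- index type of the Lickorish generators of `Map_g`: the curves `a_i`, `b_i` (`i < g`), `c_i` (`i < g - 1`) -/
abbrev LickIdx (g : ℕ) := Fin g ⊕ Fin g ⊕ Fin (g - 1)

/-- words in the Lickorish generators and their inverses -/
abbrev Word (g : ℕ) := List (LickIdx g × Bool)

/-- the tuple of mapping classes described by a list of words -/
def evalL (g : ℕ) (l : List (Word g)) : List (OutS g) := l.map (evalWord (lick g))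

/-- a list of words describes a factorization of `1 ∈ Map_g` into positive Dehn twists -/
def IsFactorization (g : ℕ) (l : List (Word g)) : Prop := IsFact (PosTwist g) (evalL g l)

/-- equivalence up to Hurwitz moves and global conjugation by a mapping class -/
def HurwitzConjEquiv (g : ℕ) (l l' : List (OutS g)) : Prop :=
  ∃ γ ∈ Mod g, HurwitzEquiv (l.map fun f => γ * f * γ⁻¹) l'

/-- `alg` decides Hurwitz equivalence of factorizations in `Map_g` (it may do anything on inputs that are
not pairs of factorizations) -/
def DecidesHurwitz (g : ℕ) (alg : List (Word g) × List (Word g) → Bool) : Prop :=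
  ∀ l l', IsFactorization g l → IsFactorization g l' →
    (alg (l, l') = true ↔ HurwitzEquiv (evalL g l) (evalL g l'))

/-- `alg` decides equivalence of factorizations in `Map_g` up to Hurwitz moves and global conjugation -/
def DecidesHurwitzConj (g : ℕ) (alg : List (Word g) × List (Word g) → Bool) : Prop :=
  ∀ l l', IsFactorization g l → IsFactorization g l' →
    (alg (l, l') = true ↔ HurwitzConjEquiv g (evalL g l) (evalL g l'))

end Pool.Agent.helper35.Hz
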