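import Mathlib
import Pool.Agent.helper35.Hz.GTop
import Pool.Agent.helper35.Hz.Stmt0
import Pool.Agent.helper27.Hz.M1
import Pool.Agent.helper35.Hz.KillerMono

/-! # Undecidability of Hurwitz equivalence -/

namespace Pool.Agent.helper35.Hz

theorem main_fixed : ∃ k₀ : ℕ, ∀ k ≥ k₀, ∃ T : List (Word (2 * k)), IsFactorization (2 * k) T ∧
    (¬ ∃ alg : List (Word (2 * k)) → Bool, Computable alg ∧ ∀ l, IsFactorization (2 * k) l →
      (alg l = true ↔ HurwitzEquiv (evalL (2 * k) l) (evalL (2 * k) T))) ∧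
    (¬ ∃ alg : List (Word (2 * k)) → Bool, Computable alg ∧ ∀ l, IsFactorization (2 * k) l →
      (alg l = true ↔ HurwitzConjEquiv (2 * k) (evalL (2 * k) l) (evalL (2 * k) T))) := by
  obtain ⟨n, rels, hn⟩ := Pool.Agent.helper11.Boone.exists_killer
  refine ⟨n + 2, fun k hk => ?_⟩
  obtain ⟨rels', hn'⟩ := killer_mono (n' := k - 2) (by omega) rels hn
  obtain ⟨W, h1, h2, h3, h4⟩ := top_main (k := k) (by omega)
  exact Pool.Agent.helper27.Hz.undecidable_of_top (lick (2 * k)) (PosTwist (2 * k))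
    (fun γ hγ f hf => PosTwist_conj hγ hf) W h1 h2 (PP k) (fun w => PP_Mod (by omega) w)
    (cl (2 * k) (tauB (2 * k) (2 * k - 2))) (Lam_Mod (tauB_Lam (by omega)))
    h3 h4 rels' hn'

theorem main : ∃ k₀ : ℕ, ∀ k ≥ k₀,
    (¬ ∃ alg : List (Word (2 * k)) × List (Word (2 * k)) → Bool,
      Computable alg ∧ DecidesHurwitz (2 * k) alg) ∧
    (¬ ∃ alg : List (Word (2 * k)) × List (Word (2 * k)) → Bool,
      Computable alg ∧ DecidesHurwitzConj (2 * k) alg) ∧
    ∃ T : List (Word (2 * k)), IsFactorization (2 * k) T ∧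
      (¬ ∃ alg : List (Word (2 * k)) → Bool, Computable alg ∧ ∀ l, IsFactorization (2 * k) l →
        (alg l = true ↔ HurwitzEquiv (evalL (2 * k) l) (evalL (2 * k) T))) ∧
      (¬ ∃ alg : List (Word (2 * k)) → Bool, Computable alg ∧ ∀ l, IsFactorization (2 * k) l →
        (alg l = true ↔ HurwitzConjEquiv (2 * k) (evalL (2 * k) l) (evalL (2 * k) T))) := by
  obtain ⟨k₀, h⟩ := main_fixed
  refine ⟨k₀, fun k hk => ?_⟩
  obtain ⟨T, hT, h1, h2⟩ := h k hk
  refine ⟨?_, ?_, T, hT, h1, h2⟩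
  · rintro ⟨alg, ha, hd⟩
    exact h1 ⟨fun l => alg (l, T), ha.comp (Computable.id.pair (Computable.const T)),
      fun l hl => hd l T hl hT⟩
  · rintro ⟨alg, ha, hd⟩
    exact h2 ⟨fun l => alg (l, T), ha.comp (Computable.id.pair (Computable.const T)),
      fun l hl => hd l T hl hT⟩

end Pool.Agent.helper35.Hz
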