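import Mathlib
import Pool.Agent.helper35.Hz.FixR

/-! # Hurwitz equivalence of factorizations into positive Dehn twists in `Map_g`: definitions

The mapping class group `Map_g` of the closed orientable surface of genus `g` is realised
(Dehn-Nielsen-Baer) inside `Out(π_1 Σ_g)`, as the subgroup generated by the Lickorish twists. -/

namespace Pool.Agent.helper35.Map

open Pool.Agent.helper35.Hz (FG R tauA tauB tauM delta tauA_R tauB_R tauM_R delta_R evalWord HurwitzEquiv)

/-- the fundamental group of the closed surface `Σ_g`: generators `a_i, b_i` (`i < g`), one relation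
`R = ∏ [a_i, b_i] = 1` -/
def Pi1 (g : ℕ) : Type := PresentedGroup ({R g} : Set (FG g))

instance (g : ℕ) : Group (Pi1 g) := QuotientGroup.Quotient.group (Subgroup.normalClosure ({R g} : Set (FG g)))

instance innNormal (G : Type*) [Group G] : (MulAut.conj (G := G)).range.Normal where
  conj_mem := by
    rintro _ ⟨x, rfl⟩ φ
    refine ⟨φ x, ?_⟩
    ext y
    simp [MulAut.conj_apply]

/-- the outer automorphism group of a group -/
def Out (G : Type) [Group G] : Type := MulAut G ⧸ (MulAut.conj (G := G)).range

instance (G : Type) [Group G] : Group (Out G) := QuotientGroup.Quotient.group _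

theorem map_closure_R {g : ℕ} (φ : MulAut (FG g)) (h : φ (R g) = R g) :
    (Subgroup.normalClosure ({R g} : Set (FG g))).map (φ : FG g →* FG g) =
      Subgroup.normalClosure ({R g} : Set (FG g)) := by
  rw [Subgroup.map_normalClosure _ _ φ.surjective]
  congr 1
  rw [Set.image_singleton]
  exact congrArg _ h

/-- the automorphism of `π_1 Σ_g` induced by an automorphism of the free group that fixes `R` -/
def induced {g : ℕ} (φ : MulAut (FG g)) (h : φ (R g) = R g) : MulAut (Pi1 g) :=
  QuotientGroup.congr _ _ φ (map_closure_R φ h)

/-- the outer automorphism of `π_1 Σ_g` induced by an automorphism of the free group that fixes `R` -/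
def outer {g : ℕ} (φ : MulAut (FG g)) (h : φ (R g) = R g) : Out (Pi1 g) :=
  (QuotientGroup.mk (induced φ h) : MulAut (Pi1 g) ⧸ (MulAut.conj (G := Pi1 g)).range)

/-- index type of the Lickorish generators of `Map_g`: the curves `a_i`, `b_i` (`i < g`), `c_i` (`i < g - 1`) -/
abbrev LickIdx (g : ℕ) := Fin g ⊕ Fin g ⊕ Fin (g - 1)

/-- the Lickorish twists: along `a_i` and `b_i` (`i < g`) and along
`c_i = b_i a_i⁻¹ b_i⁻¹ a_{i+1}` (`i < g - 1`) -/
def lick (g : ℕ) : LickIdx g → Out (Pi1 g)
  | Sum.inl i => outer (tauA g i) (tauA_R g i)
  | Sum.inr (Sum.inl i) => outer (tauB g i) (tauB_R g i)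
  | Sum.inr (Sum.inr i) => outer (tauM g i (i + 1)) (tauM_R g i (i + 1))

/-- the mapping class group `Map_g`, generated by the Lickorish twists -/
def MCG (g : ℕ) : Subgroup (Out (Pi1 g)) := Subgroup.closure (Set.range (lick g))

/-- the positive Dehn twists: the conjugates (under `Map_g`) of the twist along `a_0` (non-separating
curves) and of the twists `δ_j`, `1 ≤ j < g`, along `[a_0, b_0] ⋯ [a_{j-1}, b_{j-1}]` (separating curves) -/
def PosTwist (g : ℕ) : Set (Out (Pi1 g)) :=
  {f | ∃ γ ∈ MCG g, f = γ * outer (tauA g 0) (tauA_R g 0) * γ⁻¹ ∨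
    ∃ j, 1 ≤ j ∧ j < g ∧ f = γ * outer (delta g j) (delta_R g j) * γ⁻¹}

/-- words in the Lickorish generators (`(i, true)`) and their inverses (`(i, false)`) -/
abbrev Word (g : ℕ) := List (LickIdx g × Bool)

/-- the tuple of mapping classes described by a list of words -/
def evalL (g : ℕ) (l : List (Word g)) : List (Out (Pi1 g)) := l.map (evalWord (lick g))

/-- a list of words describes a factorization of `1 ∈ Map_g` into positive Dehn twists -/
def IsFactorization (g : ℕ) (l : List (Word g)) : Prop :=
  (∀ f ∈ evalL g l, f ∈ PosTwist g) ∧ (evalL g l).prod = 1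

/-- the two lists of words describe Hurwitz equivalent tuples -/
def HurwitzEq (g : ℕ) (l l' : List (Word g)) : Prop := HurwitzEquiv (evalL g l) (evalL g l')

/-- the two lists of words describe tuples that are equivalent up to Hurwitz moves and global conjugation
by a mapping class -/
def HurwitzConjEq (g : ℕ) (l l' : List (Word g)) : Prop :=
  ∃ γ ∈ MCG g, HurwitzEquiv ((evalL g l).map fun f => γ * f * γ⁻¹) (evalL g l')

/-- there is an algorithm that, given lists of words `l`, `l'` describing factorizations of `1 ∈ Map_g` into
positive Dehn twists, decides whether `E l l'` holds (on other inputs it may answer anything) -/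
def DecidablePairs (g : ℕ) (E : List (Word g) → List (Word g) → Prop) : Prop :=
  ∃ alg : List (Word g) × List (Word g) → Bool, Computable alg ∧
    ∀ l l', IsFactorization g l → IsFactorization g l' → (alg (l, l') = true ↔ E l l')

/-- there is an algorithm that, given a list of words `l` describing a factorization of `1 ∈ Map_g` into
positive Dehn twists, decides whether `E l` holds (on other inputs it may answer anything) -/
def DecidableFor (g : ℕ) (E : List (Word g) → Prop) : Prop :=
  ∃ alg : List (Word g) → Bool, Computable alg ∧ ∀ l, IsFactorization g l → (alg l = true ↔ E l)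

end Pool.Agent.helper35.Map
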