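import Pool.Agent.helper35.Hz.Statement
import Pool.Agent.helper35.Hz.Final

/-! # Transfer of the undecidability theorem to the definitions of the statement -/

namespace Pool.Agent.helper35.Map

open Pool.Agent.helper35.Hz (tauA tauB tauM delta tauA_R tauB_R tauM_R delta_R evalWord HurwitzEquiv OutS)

theorem outer_eq {g : ℕ} (φ : MulAut (Hz.FG g)) (h : φ (Hz.R g) = Hz.R g) :
    (outer φ h : OutS g) = Hz.toOut g ⟨φ, h⟩ := rfl

theorem lick_eq (g : ℕ) : (lick g : LickIdx g → OutS g) = Hz.lick g := by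
  funext x
  rcases x with i | i | i <;> rfl

theorem MCG_eq (g : ℕ) : (MCG g : Subgroup (OutS g)) = Hz.Mod g := by
  have : (MCG g : Subgroup (OutS g)) = Subgroup.closure (Set.range (lick g : LickIdx g → OutS g)) := rfl
  rw [this, lick_eq]
  rfl

theorem PosTwist_eq (g : ℕ) : (PosTwist g : Set (OutS g)) = Hz.PosTwist g := by
  have : (PosTwist g : Set (OutS g)) = {f : OutS g | ∃ γ : OutS g, γ ∈ (MCG g : Subgroup (OutS g)) ∧
      (f = γ * Hz.toOut g ⟨tauA g 0, tauA_R g 0⟩ * γ⁻¹ ∨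
    ∃ j, 1 ≤ j ∧ j < g ∧ f = γ * Hz.toOut g ⟨delta g j, delta_R g j⟩ * γ⁻¹)} := rfl
  rw [this, MCG_eq]
  rfl

theorem evalL_eq (g : ℕ) (l : List (Word g)) : (evalL g l : List (OutS g)) = Hz.evalL g l := by
  have : (evalL g l : List (OutS g)) = l.map (evalWord (lick g : LickIdx g → OutS g)) := rfl
  rw [this, lick_eq]
  rfl

theorem isFactorization_iff (g : ℕ) (l : List (Word g)) : IsFactorization g l ↔ Hz.IsFactorization g l := by
  have : IsFactorization g l = Hz.IsFact (PosTwist g : Set (OutS g)) (evalL g l : List (OutS g)) := rfl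
  rw [this, PosTwist_eq, evalL_eq]
  rfl

theorem hurwitzEq_iff (g : ℕ) (l l' : List (Word g)) :
    HurwitzEq g l l' ↔ HurwitzEquiv (Hz.evalL g l) (Hz.evalL g l') := by
  have : HurwitzEq g l l' = @HurwitzEquiv (OutS g) _ (evalL g l : List (OutS g)) (evalL g l' : List (OutS g)) := rfl
  rw [this, evalL_eq, evalL_eq]

theorem hurwitzConjEq_iff (g : ℕ) (l l' : List (Word g)) :
    HurwitzConjEq g l l' ↔ Hz.HurwitzConjEquiv g (Hz.evalL g l) (Hz.evalL g l') := by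
  have : HurwitzConjEq g l l' = ∃ γ : OutS g, γ ∈ (MCG g : Subgroup (OutS g)) ∧
    @HurwitzEquiv (OutS g) _ ((evalL g l : List (OutS g)).map fun f : OutS g => γ * f * γ⁻¹)
      (evalL g l' : List (OutS g)) := rfl
  rw [this, evalL_eq, evalL_eq, MCG_eq]
  rfl

theorem main : ∃ k₀ : ℕ, ∀ k ≥ k₀,
    ¬ DecidablePairs (2 * k) (HurwitzEq (2 * k)) ∧
    ¬ DecidablePairs (2 * k) (HurwitzConjEq (2 * k)) ∧
    ∃ T : List (Word (2 * k)), IsFactorization (2 * k) T ∧
      ¬ DecidableFor (2 * k) (fun l => HurwitzEq (2 * k) l T) ∧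
      ¬ DecidableFor (2 * k) (fun l => HurwitzConjEq (2 * k) l T) := by
  obtain ⟨k₀, h⟩ := Hz.main
  refine ⟨k₀, fun k hk => ?_⟩
  obtain ⟨h1, h2, T, hT, h3, h4⟩ := h k hk
  refine ⟨?_, ?_, T, (isFactorization_iff _ _).2 hT, ?_, ?_⟩
  · rintro ⟨alg, ha, hd⟩
    exact h1 ⟨alg, ha, fun l l' hl hl' => (hd l l' ((isFactorization_iff _ _).2 hl)
      ((isFactorization_iff _ _).2 hl')).trans (hurwitzEq_iff _ _ _)⟩
  · rintro ⟨alg, ha, hd⟩
    exact h2 ⟨alg, ha, fun l l' hl hl' => (hd l l' ((isFactorization_iff _ _).2 hl)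
      ((isFactorization_iff _ _).2 hl')).trans (hurwitzConjEq_iff _ _ _)⟩
  · rintro ⟨alg, ha, hd⟩
    exact h3 ⟨alg, ha, fun l hl => (hd l ((isFactorization_iff _ _).2 hl)).trans (hurwitzEq_iff _ _ _)⟩
  · rintro ⟨alg, ha, hd⟩
    exact h4 ⟨alg, ha, fun l hl => (hd l ((isFactorization_iff _ _).2 hl)).trans (hurwitzConjEq_iff _ _ _)⟩

end Pool.Agent.helper35.Map
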